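import Mathlib
import Pool.Agent.T9h24.Fv.Deg
import Pool.Agent.T9h24.Fv.Hyps
import Pool.Agent.T9h24.Fu.LemK
import Pool.Agent.T9h67.Fu.Choice
import Pool.Agent.T9h82.Fu.Reg
import Pool.Agent.T9h43.Fu.Hyp

/-!
# Beta constants and algebraic points of bounded degree

Let `X` be a geometrically integral closed subvariety of `ℙ^n` over `ℚ`, and let `Y_1, …, Y_q` be
closed subschemes of `X` over the algebraic closure of `ℚ`; `Y_i` is given by forms `g_{i,t}` of
degree `a_i`. Let `V` be a base point free linear system on `X` over `ℚ`: it is spanned by forms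
`P_0, …, P_N` of degree `d` which are linearly independent on `X` and have no common zeros on `X`,
for instance by all forms of degree `d`. Let `V_i^e` be the subspace of the elements of `V` (over the
algebraic closure) which vanish to the order `e` along `Y_i`. We prove that there is a proper closed
subset `Z` of `X`, which depends on `X`, the `Y_i`, `V`, `r` and `K` only, and for every finite set
`S` of primes and `ε > 0` a constant `C` such that for all points `x` of `X` of degree `s ≤ r` over
`ℚ` outside of `Z`
`∑_{v ∈ S ∪ {∞}} ∑_i ∑_{j < s} w_{i,j} f_{v,i,j} ≤ (1 + ε) h(P(x)) + C`,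
where `h(P(x))` is the height of the image `(P_0(x) : … : P_N(x))` of `x` under the morphism given by
`V` (it is `d h(x)` up to a bounded function).
Here `f_{v,i,0} ≥ f_{v,i,1} ≥ … ≥ f_{v,i,s-1}` are the local heights `λ_{Y_i}(y)` (the logarithms of the
reciprocals of the distances to `Y_i`) at the `s` conjugates `y` of `x` over the algebraic closure of
`ℚ_v` in decreasing order, where at each `y` only the `i` in a set `A_v(y)` of subschemes which
intersect properly are counted (these sets may be chosen for each `x`, `v` and `y`). The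
weights are `w_{i,j} = b_i((j + 1) / s) - b_i(j / s)`, where
`b_i(u) = max_{k ≤ K} (k u - ∑_{e = 1}^k (1 - dim V_i^e / dim V))`; if `K` is at least as large as the
largest order along `Y_i` of an element of `V` then this is the integral over `[0, u]` of the
quantiles of the vanishing order along `Y_i` of the elements of `V`. The weights are nondecreasing in
`j` and their sum is `β_i = ∑_{e = 1}^K dim V_i^e / dim V` (`weight_mono`, `weight_sum`). If `V` is the
system of all forms of degree `d` and `d → ∞`, then (for these large `K`) the limit of `β_i / d` is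
the constant `β(O(1), Y_i)` of McKinnon and Roth and of Ru and Vojta.

* Which sets intersect properly. If `D = ∑ Y_i` is a divisor with normal crossings on a smooth
  variety `X`, then all sets, so that all the components `Y_i` may be counted at all conjugates.
  More generally effective Cartier divisors in general position on Cohen-Macaulay varieties
  (`properly_regular` for hypersurface sections, `properly_hyperplanes` for hyperplanes of `ℙ^n` in
  general position). All sets with one element (`properly_single`), so the theorem holds for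
  arbitrary closed subschemes of arbitrary varieties if at each conjugate only the nearest `Y_i` is
  counted, and for all `i` if the `Y_i` are disjoint.
* `r = 1`: this is the general theorem of Ru and Vojta (for one subscheme McKinnon and Roth, Heier
  and Levin) for ample line bundles (by the continuity of volumes it follows for nef and big ones).
  As in Vojta's refinement of Schmidt's theorem the exceptional set does not depend on `S`, and for a
  fixed system `V` it does not depend on `ε`.
* If for each `v ∈ S ∪ {∞}` all conjugates of `x` have the same local heights, then the left side is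
  `∑_v ∑_i β_i λ_{Y_i,v}(x)` (`orderedSum_const`), as for rational points, and there is no term with
  the discriminant. So for a smooth `X` with `-K_X = c O(1)` and a divisor `D = ∑ Y_i` with normal
  crossings such that `c β(O(1), Y_i) ≥ 1` for all `i` we get for these points the inequality of
  Vojta's conjecture, even without the term `d(x)` (take all forms of a large degree `d`). This
  condition holds for instance for hyperplanes of `ℙ^n` (see `beta_hyperplane`), for the fibres of
  the projections of `ℙ^1 × … × ℙ^1`, and for the exceptional curve and the fibres of the blow-up of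
  `ℙ^2` in a point (here `c β` is `7 / 6` and `13 / 12`). Examples of such points are, for `Y_i` over
  `ℚ`, the points `x` such that there is only one place of `ℚ(x)` above each `v ∈ S ∪ {∞}`, for
  instance the imaginary quadratic points if `S` is empty.
* In general `w_{i,j} ≥ w_{i,0} = b_i(1 / s)`, hence (`mul_sum_le`)
  `∑_v ∑_i s b_i(1 / s) λ_{Y_i,v}(x) ≤ (1 + ε) h(P(x)) + C`. If `V` is the system of all forms of
  degree `d` and `Y` is a subscheme of codimension `k`, then `s b(1 / s) / d` is (for large `d`) of
  the order of magnitude `s ^ (-1 / k)`: the degree enters by the `k`-th root only. For `X = ℙ^n` and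
  linear subspaces `Y_i` of codimension `k` the `w_j / β` are the weights of `LinearSubspaces` (in
  the limit `d → ∞`), for hyperplanes those of `OrderedLocalHeights`.
* Other systems `V` can give better weights: for the point `Y = {X_1 = … = X_n = 0}` of `ℙ^n`,
  `n ≥ 2`, and the `V` spanned by `X_0 ^ d` and the monomials of degree `d` in `X_1, …, X_n` the
  numbers `b(u) / d` tend to `u`, and we get Liouville's inequality (up to `ε`).

Proof. We map `X` by `P_0, …, P_N` to a projective space of dimension `N`. For the points of degree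
`s` of this space we use the intrinsic inequality `T9h24.mainI`: the sum over `v` of the mean over
all `(N + 1)`-tuples of conjugates of minus the logarithm of the largest determinant of `N + 1`
functionals on `V`, which are at given finitely many elements of `V` not larger than the evaluations
at the conjugates `y_l`, is at most `(N + 1 + ε) h(P(x)) + C`, if `x` is outside of a hypersurface
which does not depend on `S` and `ε`. For the conjugate `y_l` let `t_i = λ_{Y_i}(y_l)` for
`i ∈ A(y_l)`, and `t_i = 0` for the other `i`. A form in the saturation `V_t^x` of the sum of the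
products `∏ J_i ^ b_i` with `∑ t_i b_i ≥ x` is at most `exp (- x)` at `y_l` (`Fu.StBdU`), and we use a
basis of `V` which is adapted to the filtration `V_t^x` (there are only finitely many different
ones). By multilinearity the determinant is a sum of products of `N + 1` such values times a minor,
the determinant of `N + 1` vectors of the dual bases. If it is not zero, then we exchange these
functionals `φ_l`, and split the sum of the `x_l` into its parts for the single `i` (`Fu.StLemK`): for
each `l` there is a basis of `V` which is adapted to the filtrations `V_{t'}^x`, `t'` the vector `t`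
without `t_i`, and `V_i^e`, and as the `Y_i` intersect properly an element of `V_{t'}^x` and of
`V_i^e` is in `V_t^(x + t_i e)`; the `φ_l` are combinations of coordinates for this basis, and some of
these are again linearly independent. At the end we have orders `o_i(l) ≤ K` such that the sum of
the `x_l` is at least `∑_l ∑_i t_{l,i} o_i(l)`, and for all `i` and `e ≤ K` the number of the `l` with
`o_i(l) < e` is at most `N + 1 - dim V_i^e`, since linearly independent functionals vanish on
`V_i^e`. If `A` is a set of conjugates at which `i` is counted then about `(N + 1) |A| / s` of the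
indices belong to conjugates in `A`, and the sum of their orders along `Y_i` is at least
`(N + 1) b_i(|A| / s)` in the mean. The functions `τ ↦ λ_{Y_i}(τ(x))` are sums of multiples of
characteristic functions of such sets `A` (layers), and this gives the ordered sum. In Lean this is
`T9h24.Fv.degF3`.
-/

set_option autoImplicit false

namespace Pool.Agent.Results.MP_651af7_nt.BetaConstants

open MvPolynomial Module

/-- The algebraic closure of `ℚ`. -/
abbrev Qbar : Type := AlgebraicClosure ℚ

/-- The polynomials in `n + 1` variables over the algebraic closure of `ℚ`. -/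
abbrev Poly (n : ℕ) : Type := MvPolynomial (Fin (n + 1)) Qbar

variable {m n q T N : ℕ}

/-- The ideal generated by the forms `G` over the algebraic closure of `ℚ`. -/
noncomputable def ideal (G : Fin m → MvPolynomial (Fin (n + 1)) ℚ) : Ideal (Poly n) :=
  Ideal.span (Set.range fun k => map (algebraMap ℚ Qbar) (G k))

/-- `X = {G = 0}` is a geometrically integral closed subvariety of `ℙ^n` over `ℚ`: the `G k` are
forms, and they generate a prime ideal over the algebraic closure of `ℚ`. -/
structure IsVariety (G : Fin m → MvPolynomial (Fin (n + 1)) ℚ) : Prop where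
  isHomogeneous : ∀ k, ∃ e, (G k).IsHomogeneous e
  isPrime : (ideal G).IsPrime

/-- The point with homogeneous coordinates `x` lies on `X = {G = 0}`. -/
def On (G : Fin m → MvPolynomial (Fin (n + 1)) ℚ) {E : Type} [Field E] [CharZero E]
    (x : Fin (n + 1) → E) : Prop :=
  ∀ k, aeval x (G k) = 0

/-- The saturation of an ideal `J`: the polynomials `P` such that `X_l ^ M P ∈ J` for all `l` and
some `M`. -/
noncomputable def saturation (J : Ideal (Poly n)) : Ideal (Poly n) :=
  Pool.Agent.T9h24.Ft.sat J

theorem mem_saturation (J : Ideal (Poly n)) (P : Poly n) :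
    P ∈ saturation J ↔ ∃ M : ℕ, ∀ l, X l ^ M * P ∈ J := Iff.rfl

/-- The closed subscheme `{J = 0}` of `X` is given by the saturation of the sum of the ideal `J` and
of the ideal of `X`: the forms in this ideal are the forms which vanish on it. -/
noncomputable def vanishing (G : Fin m → MvPolynomial (Fin (n + 1)) ℚ) (J : Ideal (Poly n)) :
    Ideal (Poly n) :=
  saturation (J ⊔ ideal G)

/-- The linear combination `∑_k c_k P_k`. -/
noncomputable def member (P : Fin (N + 1) → MvPolynomial (Fin (n + 1)) ℤ) :
    (Fin (N + 1) → Qbar) →ₗ[Qbar] Poly n :=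
  Fintype.linearCombination Qbar fun k => map (algebraMap ℤ Qbar) (P k)

theorem member_apply (P : Fin (N + 1) → MvPolynomial (Fin (n + 1)) ℤ) (c : Fin (N + 1) → Qbar) :
    member P c = ∑ k, c k • map (algebraMap ℤ Qbar) (P k) :=
  Fintype.linearCombination_apply _ _ _

/-- `P_0, …, P_N` are a basis of a base point free linear system `V` on `X` over `ℚ`: they are forms
of degree `d` which are linearly independent on `X` and have no common zeros on `X`. -/
structure IsSystem (G : Fin m → MvPolynomial (Fin (n + 1)) ℚ)
    (P : Fin (N + 1) → MvPolynomial (Fin (n + 1)) ℤ) (d : ℕ) : Prop where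
  isHomogeneous : ∀ k, (P k).IsHomogeneous d
  independent : ∀ c, member P c ∈ ideal G → c = 0
  baseFree : vanishing G (Ideal.span (Set.range fun k => map (algebraMap ℤ Qbar) (P k))) = ⊤

/-- The subspace of `V` of the elements which vanish on `{J = 0}`. -/
noncomputable def sections (G : Fin m → MvPolynomial (Fin (n + 1)) ℚ)
    (P : Fin (N + 1) → MvPolynomial (Fin (n + 1)) ℤ) (J : Ideal (Poly n)) :
    Submodule Qbar (Fin (N + 1) → Qbar) :=
  ((vanishing G J).restrictScalars Qbar).comap (member P)

/-- The ideal of the closed subscheme `Y` given by the forms `g t`. -/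
noncomputable def idealY (g : Fin T → Poly n) : Ideal (Poly n) := Ideal.span (Set.range g)

/-- The quotient `dim V^e / dim V`, where `V^e` is the space of the elements of the linear system `V`
which vanish to the order `e` along `Y`. -/
noncomputable def ratio (G : Fin m → MvPolynomial (Fin (n + 1)) ℚ)
    (P : Fin (N + 1) → MvPolynomial (Fin (n + 1)) ℤ) (g : Fin T → Poly n) (e : ℕ) : ℝ :=
  (finrank Qbar (sections G P (idealY g ^ e)) : ℝ) / (N + 1 : ℕ)

/-- The subschemes `Y_k`, `k ∈ A`, intersect properly: for `i ∈ A` and every ideal `K` which is a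
sum of products of powers of the ideals of the other `Y_k`, `k ∈ A`, the polynomials which vanish on
`{K = 0}` and to the order `e` along `Y_i` vanish on the subscheme of the ideal `K J_i ^ e`, `J_i` the
ideal of `Y_i`. This holds for sets with one element (`properly_single`), for two subschemes if it
holds for the powers of their ideals (`properly_pair`), and for hypersurface sections if each of
them is regular modulo every set of others (`properly_regular`), for instance for hyperplanes of
`ℙ^n` in general position (`properly_hyperplanes`), and so for effective Cartier divisors on a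
Cohen-Macaulay variety such that at each point the codimension of the intersection of `j` of those
which contain the point is `j`. In particular it holds for the set of all components of a divisor
with normal crossings on a smooth variety. -/
def IntersectProperly (G : Fin m → MvPolynomial (Fin (n + 1)) ℚ) (g : Fin q → Fin T → Poly n)
    (A : Finset (Fin q)) : Prop :=
  ∀ i ∈ A, ∀ (U : Finset (Fin q → ℕ)) (e : ℕ), (∀ b ∈ U, ∀ k, b k ≠ 0 → k ∈ A ∧ k ≠ i) →
    ∀ P, P ∈ vanishing G (⨆ b ∈ U, ∏ k, idealY (g k) ^ b k) →
      P ∈ vanishing G (idealY (g i) ^ e) →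
        P ∈ vanishing G ((⨆ b ∈ U, ∏ k, idealY (g k) ^ b k) * idealY (g i) ^ e)

/-- The local height `max (0, log (|y| ^ a / max_t |g_t(y)|))` of the subscheme given by the forms
`g t` of degree `a` at the point `y` (`0` if `y` lies on it): minus the logarithm of the distance
of `y` and the subscheme. The coefficients are read in `F` by means of the embedding `j`. -/
noncomputable def lambda {F : Type} [NormedField F] (a : ℕ)
    (g : Fin T → Poly n) (j : Qbar →+* F) (y : Fin (n + 1) → F) : ℝ :=
  max 0 (Real.log (‖y‖ ^ a / ‖fun t => eval y (map j (g t))‖))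

/-- The constant `β = ∑_{e = 1}^K dim V^e / dim V`, where `V^e` is the space of the elements of `V`
which vanish to the order `e` along `Y`. If `K` is at least as large as the largest order along `Y`
of an element of `V` then this is the sum over all `e ≥ 1`. -/
noncomputable def beta (G : Fin m → MvPolynomial (Fin (n + 1)) ℚ)
    (P : Fin (N + 1) → MvPolynomial (Fin (n + 1)) ℤ) (g : Fin T → Poly n) (K : ℕ) : ℝ :=
  ∑ e ∈ Finset.range K, ratio G P g (e + 1)

/-- The function `b(u) = max_{0 ≤ k ≤ K} (k u - ∑_{e = 1}^k (1 - dim V^e / dim V))`. It is the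
integral over `[0, u]` of the quantiles of the vanishing order along `Y` (of the minimum of `K` and
this order), nondecreasing and convex, `b(0) = 0` and `b(1) = β` (`profile_zero`, `profile_one`). -/
noncomputable def profile (G : Fin m → MvPolynomial (Fin (n + 1)) ℚ)
    (P : Fin (N + 1) → MvPolynomial (Fin (n + 1)) ℤ) (g : Fin T → Poly n) (K : ℕ) (u : ℝ) : ℝ :=
  ⨆ k : Fin (K + 1), ((k : ℕ) * u - ∑ e ∈ Finset.range k, (1 - ratio G P g (e + 1)))

/-- The weights `w_j = b((j + 1) / s) - b(j / s)`, `j = 0, …, s - 1`. They are nonnegative and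
nondecreasing (`weight_nonneg`, `weight_mono`) and their sum is `β` (`weight_sum`). -/
noncomputable def weight (G : Fin m → MvPolynomial (Fin (n + 1)) ℚ)
    (P : Fin (N + 1) → MvPolynomial (Fin (n + 1)) ℤ) (g : Fin T → Poly n) (K s j : ℕ) : ℝ :=
  profile G P g K (((j : ℝ) + 1) / s) - profile G P g K ((j : ℝ) / s)

/-- The ordered sum of the numbers `f(τ)`, `τ ∈ H`: it is `∑_j w_j f_j`, where
`f_0 ≥ f_1 ≥ … ≥ f_{s-1}` are these numbers in decreasing order (`orderedSum_eq`). As the weights
are nondecreasing this is the minimum of `∑_j w_j f(π(j))` over all numberings `π` of `H`. -/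
noncomputable def orderedSum (G : Fin m → MvPolynomial (Fin (n + 1)) ℚ)
    (P : Fin (N + 1) → MvPolynomial (Fin (n + 1)) ℤ) (g : Fin T → Poly n) (K : ℕ) {H : Type}
    [Fintype H] (f : H → ℝ) : ℝ :=
  ⨅ π : Fin (Fintype.card H) ≃ H,
    ∑ j : Fin (Fintype.card H), weight G P g K (Fintype.card H) j * f (π j)

/-- The sum over `i` of the ordered sums of the local heights of `Y_i` at the conjugates `τ(x)` of
the point `x` over the field `F`, where at `τ(x)` only the `i ∈ A(τ)` are counted. -/
noncomputable def proximity (G : Fin m → MvPolynomial (Fin (n + 1)) ℚ)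
    (P : Fin (N + 1) → MvPolynomial (Fin (n + 1)) ℤ) (g : Fin q → Fin T → Poly n)
    (a : Fin q → ℕ) (K : ℕ) {E : Type} [Field E] [NumberField E] {F : Type} [NormedField F]
    [CharZero F] [IsAlgClosed F] (j : Qbar →+* F) (A : (E →+* F) → Finset (Fin q))
    (x : Fin (n + 1) → E) : ℝ :=
  ∑ i, orderedSum G P (g i) K fun τ : E →+* F =>
    if i ∈ A τ then lambda (a i) (g i) j (fun l => τ (x l)) else 0

/-- The absolute logarithmic height of a point of projective space over the number field `E`. -/
noncomputable def height {E : Type} [Field E] [NumberField E] (x : Fin (n + 1) → E) : ℝ :=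
  Height.logHeight x / Module.finrank ℚ E

/-! ### The weights -/

theorem ratio_nonneg (G : Fin m → MvPolynomial (Fin (n + 1)) ℚ)
    (P : Fin (N + 1) → MvPolynomial (Fin (n + 1)) ℤ) (g : Fin T → Poly n) (e : ℕ) :
    0 ≤ ratio G P g e := by
  unfold ratio
  positivity

theorem sections_le (G : Fin m → MvPolynomial (Fin (n + 1)) ℚ)
    (P : Fin (N + 1) → MvPolynomial (Fin (n + 1)) ℤ) (J : Ideal (Poly n)) :
    finrank Qbar (sections G P J) ≤ N + 1 := by
  have h1 := Submodule.finrank_le (sections G P J)
  rwa [finrank_fin_fun] at h1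

theorem profile_eq (G : Fin m → MvPolynomial (Fin (n + 1)) ℚ)
    (P : Fin (N + 1) → MvPolynomial (Fin (n + 1)) ℤ) (g : Fin T → Poly n) (K : ℕ) (u : ℝ) :
    profile G P g K u = Pool.Agent.T9h24.Fv.pfl K
      (fun e => finrank Qbar (sections G P (idealY g ^ e))) (N + 1) u := rfl

theorem weight_nonneg (G : Fin m → MvPolynomial (Fin (n + 1)) ℚ)
    (P : Fin (N + 1) → MvPolynomial (Fin (n + 1)) ℤ) (g : Fin T → Poly n) (K s j : ℕ) :
    0 ≤ weight G P g K s j := by
  unfold weight
  rw [profile_eq, profile_eq, sub_nonneg]
  exact Pool.Agent.T9h24.Fv.pfl_mono (div_le_div_of_nonneg_right (by linarith)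
    (Nat.cast_nonneg _))

theorem weight_mono (G : Fin m → MvPolynomial (Fin (n + 1)) ℚ)
    (P : Fin (N + 1) → MvPolynomial (Fin (n + 1)) ℤ) (g : Fin T → Poly n) (K s : ℕ) {j j' : ℕ}
    (h : j ≤ j') : weight G P g K s j ≤ weight G P g K s j' := by
  induction j', h using Nat.le_induction with
  | base => exact le_rfl
  | succ j' _ ih =>
    refine ih.trans ?_
    unfold weight
    simp only [profile_eq]
    have h1 := Pool.Agent.T9h24.Fv.pfl_mid (K := K)
      (D := fun e => finrank Qbar (sections G P (idealY g ^ e))) (M := N + 1)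
      ((j' : ℝ) / s) (((j' : ℝ) + 2) / s)
    have h2 : ((j' : ℝ) / s + ((j' : ℝ) + 2) / s) / 2 = ((j' : ℝ) + 1) / s := by ring
    rw [h2] at h1
    push_cast
    have h3 : (j' : ℝ) + 1 + 1 = j' + 2 := by ring
    rw [h3]
    linarith

theorem profile_zero (G : Fin m → MvPolynomial (Fin (n + 1)) ℚ)
    (P : Fin (N + 1) → MvPolynomial (Fin (n + 1)) ℤ) (g : Fin T → Poly n) (K : ℕ) :
    profile G P g K 0 = 0 := by
  rw [profile_eq, Pool.Agent.T9h24.Fv.pfl_zero fun t => sections_le G P _]

theorem profile_one (G : Fin m → MvPolynomial (Fin (n + 1)) ℚ)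
    (P : Fin (N + 1) → MvPolynomial (Fin (n + 1)) ℤ) (g : Fin T → Poly n) (K : ℕ) :
    profile G P g K 1 = beta G P g K := by
  unfold profile beta
  have h1 : ∀ k : ℕ, ((k : ℕ) : ℝ) * 1 - ∑ e ∈ Finset.range k, (1 - ratio G P g (e + 1)) =
      ∑ e ∈ Finset.range k, ratio G P g (e + 1) := by
    intro k
    rw [Finset.sum_sub_distrib, Finset.sum_const, Finset.card_range, nsmul_eq_mul]
    ring
  simp only [h1]
  refine le_antisymm (ciSup_le fun k => ?_) ?_
  · refine Finset.sum_le_sum_of_subset_of_nonneg ?_ fun e _ _ => ratio_nonneg G P g _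
    exact Finset.range_mono (by omega)
  · refine le_trans (le_of_eq ?_) (le_ciSup (f := fun k : Fin (K + 1) =>
      ∑ e ∈ Finset.range (k : ℕ), ratio G P g (e + 1)) (Set.finite_range _).bddAbove
      (Fin.last K))
    rw [Fin.val_last]

theorem weight_sum (G : Fin m → MvPolynomial (Fin (n + 1)) ℚ)
    (P : Fin (N + 1) → MvPolynomial (Fin (n + 1)) ℤ) (g : Fin T → Poly n) (K : ℕ) {s : ℕ}
    (hs : 1 ≤ s) : ∑ j : Fin s, weight G P g K s j = beta G P g K := by
  have h1 : ∑ j : Fin s, weight G P g K s j = ∑ j ∈ Finset.range s,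
      (profile G P g K (((j + 1 : ℕ) : ℝ) / s) - profile G P g K ((j : ℝ) / s)) := by
    rw [Finset.sum_range]
    refine Finset.sum_congr rfl fun j _ => ?_
    unfold weight
    push_cast
    rfl
  have hs0 : (s : ℝ) ≠ 0 := by positivity
  rw [h1, Finset.sum_range_sub (fun j : ℕ => profile G P g K ((j : ℝ) / s)), div_self hs0,
    Nat.cast_zero, zero_div, profile_zero, profile_one, sub_zero]

/-- The ordered sum is the sum `∑_j w_j f_j` for the decreasing order. -/
theorem orderedSum_eq (G : Fin m → MvPolynomial (Fin (n + 1)) ℚ)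
    (P : Fin (N + 1) → MvPolynomial (Fin (n + 1)) ℤ) (g : Fin T → Poly n) (K : ℕ) {H : Type}
    [Fintype H] (f : H → ℝ) (π : Fin (Fintype.card H) ≃ H) (h : Antitone fun j => f (π j)) :
    orderedSum G P g K f =
      ∑ j : Fin (Fintype.card H), weight G P g K (Fintype.card H) j * f (π j) := by
  have hne : Nonempty (Fin (Fintype.card H) ≃ H) := ⟨π⟩
  refine le_antisymm (ciInf_le (Set.finite_range _).bddBelow π) (le_ciInf fun ρ => ?_)
  have h1 : Antivary (fun j : Fin (Fintype.card H) => weight G P g K (Fintype.card H) j)
      (fun j => f (π j)) := by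
    intro a b hab
    have h2 : b < a := by
      by_contra h3
      exact absurd (h (not_lt.1 h3)) (not_le.2 hab)
    exact weight_mono G P g K _ h2.le
  have h2 := h1.sum_mul_le_sum_mul_comp_perm (σ := ρ.trans π.symm)
  refine h2.trans (le_of_eq (Finset.sum_congr rfl fun j _ => ?_))
  simp

/-- If all the numbers are equal then the ordered sum is `β` times the number. -/
theorem orderedSum_const (G : Fin m → MvPolynomial (Fin (n + 1)) ℚ)
    (P : Fin (N + 1) → MvPolynomial (Fin (n + 1)) ℤ) (g : Fin T → Poly n) (K : ℕ) {H : Type}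
    [Fintype H] [Nonempty H] (c : ℝ) :
    orderedSum G P g K (fun _ : H => c) = beta G P g K * c := by
  have hne : Nonempty (Fin (Fintype.card H) ≃ H) := ⟨(Fintype.equivFin H).symm⟩
  unfold orderedSum
  rw [ciInf_const, ← Finset.sum_mul, weight_sum G P g K Fintype.card_pos]

/-- The sum is at most the ordered sum divided by the smallest weight. -/
theorem mul_sum_le (G : Fin m → MvPolynomial (Fin (n + 1)) ℚ)
    (P : Fin (N + 1) → MvPolynomial (Fin (n + 1)) ℤ) (g : Fin T → Poly n) (K : ℕ) {H : Type}
    [Fintype H] (f : H → ℝ) (hf : ∀ τ, 0 ≤ f τ) :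
    weight G P g K (Fintype.card H) 0 * ∑ τ, f τ ≤ orderedSum G P g K f := by
  have hne : Nonempty (Fin (Fintype.card H) ≃ H) := ⟨(Fintype.equivFin H).symm⟩
  refine le_ciInf fun π => ?_
  rw [← Equiv.sum_comp π, Finset.mul_sum]
  exact Finset.sum_le_sum fun j _ => mul_le_mul_of_nonneg_right
    (weight_mono G P g K _ (Nat.zero_le _)) (hf _)

theorem orderedSum_LstG (G : Fin m → MvPolynomial (Fin (n + 1)) ℚ)
    (P : Fin (N + 1) → MvPolynomial (Fin (n + 1)) ℤ) (g : Fin T → Poly n) (K : ℕ) {H : Type}
    [Fintype H] {s : ℕ} (hs : Fintype.card H = s) (f : H → ℝ) :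
    orderedSum G P g K f = Pool.Agent.T9h24.LstG (Pool.Agent.T9h24.Fv.pfl K
      (fun e => finrank Qbar (sections G P (idealY g ^ e))) (N + 1)) s f := by
  subst hs
  rfl

/-! ### Properly intersecting subschemes -/

/-- One subscheme. -/
theorem properly_single (G : Fin m → MvPolynomial (Fin (n + 1)) ℚ) (g : Fin q → Fin T → Poly n)
    (i : Fin q) : IntersectProperly G g {i} :=
  Pool.Agent.T9h24.Fu.proper_single (I := Pool.Agent.T9h24.idX G) i

/-- Two subschemes: it is enough to consider the powers of their ideals. -/
theorem properly_pair (G : Fin m → MvPolynomial (Fin (n + 1)) ℚ) (g : Fin q → Fin T → Poly n)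
    (i i' : Fin q) (hne : i ≠ i') (h : ∀ (e e' : ℕ) (P : Poly n),
      P ∈ vanishing G (idealY (g i) ^ e) → P ∈ vanishing G (idealY (g i') ^ e') →
        P ∈ vanishing G (idealY (g i) ^ e * idealY (g i') ^ e')) :
    IntersectProperly G g {i, i'} :=
  Pool.Agent.T9h24.Fu.proper_pair (I := Pool.Agent.T9h24.idX G) i i' hne h

/-- Hypersurface sections `f_k = 0`, `k ∈ A`: it is enough that each `f_i` is not a zero divisor modulo
each set of the others, for the saturated ideals. -/
theorem properly_regular (G : Fin m → MvPolynomial (Fin (n + 1)) ℚ) (f : Fin q → Poly n)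
    (A : Finset (Fin q)) (h : ∀ i ∈ A, ∀ B : Finset (Fin q), B ⊆ A → i ∉ B → ∀ P,
      f i * P ∈ vanishing G (Ideal.span (f '' (B : Set (Fin q)))) →
        P ∈ vanishing G (Ideal.span (f '' (B : Set (Fin q))))) :
    IntersectProperly G (fun k (_ : Fin 1) => f k) A :=
  Pool.Agent.T9h82.Fu.stReg n q (Pool.Agent.T9h24.idX G) f A h

/-- Hyperplanes `∑_k w_{i,k} X_k = 0` of `ℙ^n` in general position: if at most `n + 1` of the vectors
`w_i`, `i ∈ A`, are always linearly independent then the hyperplanes with indices in `A` intersect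
properly. -/
theorem properly_hyperplanes (w : Fin q → Fin (n + 1) → Qbar) (A : Finset (Fin q))
    (hA : ∀ B ⊆ A, B.card ≤ n + 1 → LinearIndepOn Qbar w (B : Set (Fin q))) :
    IntersectProperly (fun k : Fin 0 => k.elim0) (fun i (_ : Fin 1) => ∑ k, w i k • X k) A := by
  have hI : ideal (n := n) (fun k : Fin 0 => k.elim0) = ⊥ := by
    unfold ideal
    rw [Set.range_eq_empty, Ideal.span_empty]
  refine properly_regular _ _ A fun i hi B hB hiB P hP => ?_
  unfold vanishing saturation at hP ⊢
  rw [hI, sup_bot_eq] at hP ⊢
  simp only [← Pool.Agent.T9h24.Fv.lin_apply] at hP ⊢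
  exact Pool.Agent.T9h24.Fv.genPos w A hA i hi B hB hiB P hP

/-! ### Hyperplanes -/

theorem sum_choose (n d : ℕ) :
    ∑ e ∈ Finset.range d, ((n + d - (e + 1)).choose n) = (n + d).choose (n + 1) := by
  induction d with
  | zero => simp
  | succ d ih =>
    rw [Finset.sum_range_succ', ← add_assoc n d 1, Nat.choose_succ_succ' (n + d) n]
    have h1 : ∀ m ∈ Finset.range d, (n + d + 1 - (m + 1 + 1)).choose n =
        (n + d - (m + 1)).choose n := by
      intro m _
      congr 1
      omega
    rw [Finset.sum_congr rfl h1, ih]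
    simp [add_comm]

/-- For a hyperplane of `ℙ^n` and the system of all forms of degree `d`, `β = d / (n + 1)`. -/
theorem beta_hyperplane (P : Fin (N + 1) → MvPolynomial (Fin (n + 1)) ℤ) (d : ℕ)
    (hP : IsSystem (fun k : Fin 0 => k.elim0) P d)
    (hP' : ∀ Q : Poly n, Q.IsHomogeneous d → ∃ c, member P c = Q) (hn : 1 ≤ n) (L : Poly n)
    (hL : L.IsHomogeneous 1) (hL0 : L ≠ 0) :
    beta (fun k : Fin 0 => k.elim0) P (fun _ : Fin 1 => L) d = (d : ℝ) / (n + 1) := by
  have hI : ideal (n := n) (fun k : Fin 0 => k.elim0) = ⊥ := by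
    unfold ideal
    rw [Set.range_eq_empty, Ideal.span_empty]
  have hY : idealY (fun _ : Fin 1 => L) = Ideal.span {L} := by
    unfold idealY
    rw [Set.range_const]
  have hinj : Function.Injective (member P) := by
    rw [← LinearMap.ker_eq_bot, LinearMap.ker_eq_bot']
    intro c hc
    apply hP.independent
    rw [hc]
    exact Ideal.zero_mem _
  have hhom : ∀ c, (member P c).IsHomogeneous d := by
    intro c
    rw [member_apply]
    refine (homogeneousSubmodule (Fin (n + 1)) Qbar d).sum_mem fun k _ => ?_
    exact (homogeneousSubmodule (Fin (n + 1)) Qbar d).smul_mem _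
      ((hP.isHomogeneous k).map _)
  have hdim : ∀ e, e ≤ d → finrank Qbar (sections (fun k : Fin 0 => k.elim0) P
      (idealY (fun _ : Fin 1 => L) ^ e)) = (n + d - e).choose n := by
    intro e he
    have h1 := Pool.Agent.T9h43.Fu.stHyp n d e L hL hL0 hn he
    have h2 : (sections (fun k : Fin 0 => k.elim0) P
        (idealY (fun _ : Fin 1 => L) ^ e)).map (member P) =
        homogeneousSubmodule (Fin (n + 1)) Qbar d ⊓
          (Pool.Agent.T9h24.Ft.sat (Ideal.span {L} ^ e)).restrictScalars Qbar := by
      unfold sections vanishing saturation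
      rw [hI, hY, sup_bot_eq]
      ext Q
      constructor
      · rintro ⟨c, hc, rfl⟩
        exact ⟨hhom c, hc⟩
      · rintro ⟨hQ, hQ'⟩
        obtain ⟨c, rfl⟩ := hP' Q hQ
        exact ⟨c, hQ', rfl⟩
    rw [← h1, ← h2]
    exact LinearEquiv.finrank_eq (Submodule.equivMapOfInjective (member P) hinj _)
  have hN : ((N + 1 : ℕ) : ℝ) = ((n + d).choose n : ℕ) := by
    have h1 := hdim 0 (Nat.zero_le _)
    have h2 : sections (fun k : Fin 0 => k.elim0) P (idealY (fun _ : Fin 1 => L) ^ 0) = ⊤ := by
      rw [eq_top_iff]
      intro c _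
      show member P c ∈ vanishing _ _
      rw [pow_zero, Ideal.one_eq_top]
      unfold vanishing
      rw [top_sup_eq]
      exact Pool.Agent.T9h24.Ft.le_sat _ Submodule.mem_top
    rw [h2, finrank_top, finrank_fin_fun] at h1
    exact_mod_cast h1
  have hpos : (0 : ℝ) < ((n + d).choose n : ℕ) := by
    exact_mod_cast Nat.choose_pos (Nat.le_add_right n d)
  have hr : ∀ e ∈ Finset.range d, ratio (fun k : Fin 0 => k.elim0) P
      (fun _ : Fin 1 => L) (e + 1) = ((n + d - (e + 1)).choose n : ℕ) /
        ((n + d).choose n : ℕ) := by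
    intro e he
    have := Finset.mem_range.1 he
    unfold ratio
    rw [hdim (e + 1) (by omega), hN]
  unfold beta
  rw [Finset.sum_congr rfl hr, ← Finset.sum_div]
  have h1 := Nat.choose_succ_right_eq (n + d) n
  rw [Nat.add_sub_cancel_left] at h1
  have h2 : (((n + d).choose (n + 1) : ℕ) : ℝ) * (n + 1) = ((n + d).choose n : ℕ) * d := by
    exact_mod_cast h1
  rw [div_eq_div_iff hpos.ne' (by positivity)]
  have h3 : ∑ e ∈ Finset.range d, (((n + d - (e + 1)).choose n : ℕ) : ℝ) =
      ((n + d).choose (n + 1) : ℕ) := by
    exact_mod_cast sum_choose n d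
  rw [h3]
  linarith

/-! ### Scaling -/

theorem lambda_smul {F : Type} [NormedField F] {a : ℕ}
    {g : Fin T → Poly n} (hg : ∀ t, (g t).IsHomogeneous a)
    (j : Qbar →+* F) (c : F) (hc : c ≠ 0) (y : Fin (n + 1) → F) :
    lambda a g j (c • y) = lambda a g j y := by
  have h1 : (fun t => eval (c • y) (map j (g t))) = c ^ a • fun t => eval y (map j (g t)) := by
    funext t
    rw [Pi.smul_apply, smul_eq_mul]
    exact Pool.Agent.T9h24.Ft.eval_smul_form ((hg t).map j) c y
  unfold lambda
  rw [h1, norm_smul, norm_smul, norm_pow, mul_pow,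
    mul_div_mul_left _ _ (pow_ne_zero _ (norm_ne_zero_iff.2 hc))]

theorem lambda_mul {E : Type} [Field E] {F : Type} [NormedField F] {a : ℕ}
    {g : Fin T → Poly n} (hg : ∀ t, (g t).IsHomogeneous a)
    (j : Qbar →+* F) (τ : E →+* F) (x : Fin (n + 1) → E) (c : E) (hc : c ≠ 0) :
    lambda a g j (fun l => τ (c * x l)) = lambda a g j (fun l => τ (x l)) := by
  have h1 : (fun l => τ (c * x l)) = τ c • fun l => τ (x l) := by
    funext l
    rw [map_mul, Pi.smul_apply, smul_eq_mul]
  rw [h1, lambda_smul hg _ _ ((map_ne_zero τ).2 hc)]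

/-- The sum for one place. -/
theorem proximity_eq {s K : ℕ} {F : Type} [NormedField F] [CharZero F]
    [IsAlgClosed F] {E : Type} [Field E] [NumberField E] (hcard : Fintype.card (E →+* F) = s)
    (G : Fin m → MvPolynomial (Fin (n + 1)) ℚ) (P : Fin (N + 1) → MvPolynomial (Fin (n + 1)) ℤ)
    (g : Fin q → Fin T → Poly n) (a : Fin q → ℕ)
    (hg : ∀ i t, (g i t).IsHomogeneous (a i)) (j : Qbar →+* F)
    (A : (E →+* F) → Finset (Fin q))
    (x y : Fin (n + 1) → E) (c : E) (hc : c ≠ 0) (hy : ∀ l, y l = c * x l) :
    proximity G P g a K j A x = ∑ i, Pool.Agent.T9h24.LstG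
      (Pool.Agent.T9h24.Fv.pfl K
        (fun e => finrank Qbar (sections G P (idealY (g i) ^ e))) (N + 1)) s
      (fun τ : E →+* F => if i ∈ A τ then
        Pool.Agent.T9h24.Ft.lg (a i) (g i) j (fun l => τ (y l)) else 0) := by
  unfold proximity
  refine Finset.sum_congr rfl fun i _ => ?_
  rw [orderedSum_LstG G P (g i) K hcard]
  congr 1
  funext τ
  have h1 : lambda (a i) (g i) j (fun l => τ (x l)) =
      Pool.Agent.T9h24.Ft.lg (a i) (g i) j (fun l => τ (y l)) := by
    rw [show (fun l => τ (y l)) = fun l => τ (c * x l) from funext fun l => by rw [hy]]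
    exact (lambda_mul (hg i) j τ x c hc).symm
  rw [h1]

/-- **Beta constants and algebraic points of bounded degree.** Let `X = {G = 0}` be a geometrically
integral closed subvariety of `ℙ^n` over `ℚ`, let `V` be a base point free linear system on `X` over
`ℚ` with basis `P_0, …, P_N`, and let `Y_i`, `i < q`, be the closed subschemes of `X` given by forms
`g i t`, `t < T`, of degrees `a i` over the algebraic closure of `ℚ`. For all `r` and `K` there is a
finite set `Z` of forms over the algebraic closure of `ℚ` which do not vanish identically on `X`,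
with the following property. For all finite sets `S` of primes and all `ε > 0` there is a constant
`C` such that for all points `x` of `X` over number fields `E` of degree at most `r` such that no
conjugate of `x` is a zero of a form in `Z`, and for all choices, for each place `v ∈ S ∪ {∞}` and
each embedding `τ` of `E` in the algebraic closure of `ℚ_v`, of a set `A_v(τ)` of indices such that
the `Y_i`, `i ∈ A_v(τ)`, intersect properly,
`∑_{v ∈ S ∪ {∞}} ∑_i ∑_j w_{i,j} f_{v,i,j} ≤ (1 + ε) h(P(x)) + C`.
Here `f_{v,i,0} ≥ f_{v,i,1} ≥ …` are the numbers `λ_{Y_i}(τ(x))` (if `i ∈ A_v(τ)`) or `0` (if not) in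
decreasing order, and `w_{i,j}` are the weights, whose sum is `β_i`. -/
theorem result (m n q T N r d K : ℕ)
    (G : Fin m → MvPolynomial (Fin (n + 1)) ℚ) (hG : IsVariety G)
    (P : Fin (N + 1) → MvPolynomial (Fin (n + 1)) ℤ) (hP : IsSystem G P d)
    (g : Fin q → Fin T → Poly n) (a : Fin q → ℕ) (hg : ∀ i t, (g i t).IsHomogeneous (a i)) :
    ∃ Z : Finset (Poly n), (∀ Q ∈ Z, Q ∉ ideal G ∧ ∃ t, Q.IsHomogeneous t) ∧
      ∀ (S : Finset Nat.Primes) (ε : ℝ), 0 < ε → ∃ C : ℝ,
        ∀ (E : Type) [Field E] [NumberField E], Module.finrank ℚ E ≤ r →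
        ∀ x : Fin (n + 1) → E, x ≠ 0 → On G x →
        (∀ Q ∈ Z, ∀ τ : E →+* Qbar, eval (fun i => τ (x i)) Q ≠ 0) →
        ∀ (j : Qbar →+* ℂ) (A : (E →+* ℂ) → Finset (Fin q)),
          (∀ τ, IntersectProperly G g (A τ)) →
        ∀ (jp : ∀ p : Nat.Primes, Qbar →+* PadicAlgCl p)
          (Ap : ∀ p : Nat.Primes, (E →+* PadicAlgCl p) → Finset (Fin q)),
          (∀ p ∈ S, ∀ τ, IntersectProperly G g (Ap p τ)) →
          proximity G P g a K j A x + ∑ p ∈ S, proximity G P g a K (jp p) (Ap p) x ≤
            (1 + ε) * height (fun k => aeval x (P k)) + C := by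
  classical
  choose g0 hg0 using hG.isHomogeneous
  have hfree : ∀ l, ∃ M : ℕ, (X l : Poly n) ^ M ∈ Ideal.span (Set.range fun k =>
      map (algebraMap ℤ Qbar) (P k)) ⊔ Pool.Agent.T9h24.idX G := by
    intro l
    have h1 : (1 : Poly n) ∈ vanishing G (Ideal.span (Set.range fun k =>
      map (algebraMap ℤ Qbar) (P k))) := by
      rw [hP.baseFree]
      exact Submodule.mem_top
    obtain ⟨M, hM⟩ := h1
    refine ⟨M, ?_⟩
    have h2 := hM l
    rwa [mul_one] at h2
  have hind : ∀ w : Fin (N + 1) → Qbar, ∑ k, w k • map (algebraMap ℤ Qbar) (P k) ∈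
      Pool.Agent.T9h24.idX G → w = 0 := by
    intro w hw
    apply hP.independent w
    rw [member_apply]
    exact hw
  have hZs : ∀ s : ℕ, ∃ Z : Finset (Poly n),
      1 ≤ s → (∀ Q ∈ Z, Q ∉ ideal G ∧ ∃ t, Q.IsHomogeneous t) ∧
      ∀ (S : Finset Nat.Primes) (ε : ℝ), 0 < ε → ∃ Cc : ℝ, ∀ (E : Type) [Field E]
        [NumberField E], Module.finrank ℚ E = s → ∀ x : Fin (n + 1) → E, x ≠ 0 → On G x →
        (∀ Q ∈ Z, ∀ τ : E →+* Qbar, eval (fun i => τ (x i)) Q ≠ 0) →
        ∀ (j : Qbar →+* ℂ) (A : (E →+* ℂ) → Finset (Fin q)),
          (∀ τ, IntersectProperly G g (A τ)) →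
        ∀ (jp : ∀ p : Nat.Primes, Qbar →+* PadicAlgCl p)
          (Ap : ∀ p : Nat.Primes, (E →+* PadicAlgCl p) → Finset (Fin q)),
          (∀ p ∈ S, ∀ τ, IntersectProperly G g (Ap p τ)) →
          proximity G P g a K j A x + ∑ p ∈ S, proximity G P g a K (jp p) (Ap p) x ≤
            (1 + ε) * height (fun k => aeval x (P k)) + Cc := by
    intro s
    by_cases hs1 : 1 ≤ s
    · obtain ⟨Z, hZ, h⟩ := Pool.Agent.T9h24.Fv.degF3
        (Pool.Agent.T9h24.Fu.stLemK Pool.Agent.T9h67.Fu.stChoice) d K s hs1 G g0 hg0 P
        hP.isHomogeneous (fun k => map (algebraMap ℤ Qbar) (P k)) (fun k => rfl) hind hfree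
        g a hg (fun i e => finrank Qbar (sections G P (idealY (g i) ^ e))) (fun i t => rfl)
      refine ⟨Z, fun _ => ⟨hZ, fun S ε hε => ?_⟩⟩
      obtain ⟨Cc, hC⟩ := h S ε hε
      refine ⟨Cc, fun E _ _ hE x hx hxG hxZ j A hA jp Ap hAp => ?_⟩
      -- integral coordinates
      obtain ⟨b, hb0, hb⟩ := exists_integral_multiples ℤ ℚ (Finset.univ.image x)
      have hint : ∀ i, ∃ w : NumberField.RingOfIntegers E, (w : E) = (b : E) * x i := by
        intro i
        have h1 := hb (x i) (Finset.mem_image_of_mem _ (Finset.mem_univ i))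
        rw [zsmul_eq_mul] at h1
        exact ⟨⟨_, h1⟩, rfl⟩
      choose x' hx' using hint
      have hbE : (b : E) ≠ 0 := by exact_mod_cast hb0
      have hx'0 : x' ≠ 0 := by
        intro h0
        apply hx
        funext i
        have h1 := hx' i
        rw [h0] at h1
        have h2 : (b : E) * x i = 0 := by rw [← h1]; rfl
        exact (mul_eq_zero.1 h2).resolve_left hbE
      have hx'f : (fun i => (x' i : E)) = fun i => (b : E) * x i := funext hx'
      have hx's : (fun i => (x' i : E)) = (b : E) • x := hx'f
      have hx'G : ∀ k, aeval (fun i => (x' i : E)) (G k) = 0 := by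
        intro k
        have h1 : aeval (fun i => (x' i : E)) (G k) = eval ((b : E) • x)
            (map (algebraMap ℚ E) (G k)) := by
          rw [hx's, aeval_def, eval_map]
        rw [h1, Pool.Agent.T9h24.Ft.eval_smul_form ((hg0 k).map _)]
        have h2 : eval x (map (algebraMap ℚ E) (G k)) = 0 := by
          rw [eval_map]
          exact hxG k
        rw [h2, mul_zero]
      have hmain := hC E hE x' hx'0 hx'G (by
        intro Q hQ τ h0
        apply hxZ Q hQ τ
        obtain ⟨t, ht⟩ := (hZ Q hQ).2
        have h1 : (fun i => τ (x' i : E)) = τ (b : E) • fun i => τ (x i) := by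
          funext i
          rw [Pi.smul_apply, smul_eq_mul, hx', map_mul]
        rw [h1, Pool.Agent.T9h24.Ft.eval_smul_form ht] at h0
        exact (mul_eq_zero.1 h0).resolve_left (pow_ne_zero _ ((map_ne_zero τ).2 hbE)))
        A j Ap jp hA hAp
      have hPx : (fun k => ((aeval x' (P k) : NumberField.RingOfIntegers E) : E)) =
          (b : E) ^ d • fun k => aeval x (P k) := by
        funext k
        have h1 := Pool.Agent.T9h24.Fv.map_aeval_int (RingHom.id E) x' (P k)
        have h2 : aeval x (P k) = eval x (map (algebraMap ℤ E) (P k)) := by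
          rw [aeval_def, eval_map]
        rw [Pi.smul_apply, smul_eq_mul, h2,
          ← Pool.Agent.T9h24.Ft.eval_smul_form ((hP.isHomogeneous k).map (algebraMap ℤ E)),
          ← hx's, eval_map]
        exact h1
      have hht : Height.logHeight (fun k =>
          ((aeval x' (P k) : NumberField.RingOfIntegers E) : E)) =
          Height.logHeight fun k => aeval x (P k) := by
        rw [hPx]
        exact Height.logHeight_smul_eq_logHeight _ (pow_ne_zero _ hbE)
      have hh : (Height.logHeight fun k => aeval x (P k)) / s =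
          height (fun k => aeval x (P k)) := by
        unfold height
        rw [hE]
      rw [hht, hh] at hmain
      have hcard : Fintype.card (E →+* ℂ) = s := by
        rw [Pool.Agent.T9h24.card_emb ℂ, hE]
      have hcardp : ∀ p : Nat.Primes, Fintype.card (E →+* PadicAlgCl p) = s := fun p => by
        rw [Pool.Agent.T9h24.card_emb (PadicAlgCl p), hE]
      rw [proximity_eq hcard G P g a hg j A x (fun l => (x' l : E)) (b : E) hbE hx',
        Finset.sum_congr rfl fun p _ => proximity_eq (hcardp p) G P g a hg (jp p) (Ap p) x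
          (fun l => (x' l : E)) (b : E) hbE hx']
      convert hmain using 3
    · exact ⟨∅, fun h1 => absurd h1 hs1⟩
  choose Zs hZs using hZs
  refine ⟨(Finset.Icc 1 r).biUnion Zs, fun Q hQ => ?_, fun S ε hε => ?_⟩
  · obtain ⟨s, hs, hs'⟩ := Finset.mem_biUnion.1 hQ
    exact (hZs s (Finset.mem_Icc.1 hs).1).1 Q hs'
  · have hCs : ∀ s : ℕ, ∃ Cc : ℝ, 1 ≤ s → ∀ (E : Type) [Field E]
        [NumberField E], Module.finrank ℚ E = s → ∀ x : Fin (n + 1) → E, x ≠ 0 → On G x →
        (∀ Q ∈ Zs s, ∀ τ : E →+* Qbar, eval (fun i => τ (x i)) Q ≠ 0) →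
        ∀ (j : Qbar →+* ℂ) (A : (E →+* ℂ) → Finset (Fin q)),
          (∀ τ, IntersectProperly G g (A τ)) →
        ∀ (jp : ∀ p : Nat.Primes, Qbar →+* PadicAlgCl p)
          (Ap : ∀ p : Nat.Primes, (E →+* PadicAlgCl p) → Finset (Fin q)),
          (∀ p ∈ S, ∀ τ, IntersectProperly G g (Ap p τ)) →
          proximity G P g a K j A x + ∑ p ∈ S, proximity G P g a K (jp p) (Ap p) x ≤
            (1 + ε) * height (fun k => aeval x (P k)) + Cc := by
      intro s
      by_cases hs : 1 ≤ s
      · obtain ⟨Cc, hC⟩ := (hZs s hs).2 S ε hε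
        exact ⟨Cc, fun _ => hC⟩
      · exact ⟨0, fun h1 => absurd h1 hs⟩
    choose Cs hCs using hCs
    refine ⟨∑ s ∈ Finset.Icc 1 r, |Cs s|, fun E _ _ hE x hx hxG hxZ j A hA jp Ap hAp => ?_⟩
    have hpos : 1 ≤ Module.finrank ℚ E := Module.finrank_pos
    have hmem : Module.finrank ℚ E ∈ Finset.Icc 1 r := Finset.mem_Icc.2 ⟨hpos, hE⟩
    have h1 := hCs _ hpos E rfl x hx hxG (fun Q hQ => hxZ Q
      (Finset.mem_biUnion.2 ⟨_, hmem, hQ⟩)) j A hA jp Ap hAp
    have h2 : |Cs (Module.finrank ℚ E)| ≤ ∑ s ∈ Finset.Icc 1 r, |Cs s| :=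
      Finset.single_le_sum (f := fun s => |Cs s|) (fun s _ => abs_nonneg _) hmem
    have h3 := le_abs_self (Cs (Module.finrank ℚ E))
    linarith

end Pool.Agent.Results.MP_651af7_nt.BetaConstants
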