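import Mathlib
import Pool.Agent.T9h24.Ls.Deg
import Pool.Agent.T9h58.Ls.A
import Pool.Agent.T9h58.Ls.B

/-!
# Algebraic points of bounded degree near linear subspaces

Let `Z_i`, `i < q`, be different nonempty proper linear subspaces of `ℙ^n` over the algebraic closure of
`ℚ`, such that the intersection of two of them is empty or again one of them (for instance all
intersections of the hyperplanes of an arrangement, or a finite set of points). Let `k_i` be the
codimension of `Z_i`. For a point `y` over `ℂ` or the algebraic closure of `ℚ_p` let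
`λ_{Z_i}(y) = log (|y| / max_t |L_{i,t}(y)|)` be the local height for `Z_i` and
`λ_{E_i}(y) = max (0, λ_{Z_i}(y) - max (0, max_{Z_{i'} ⊊ Z_i} λ_{Z_{i'}}(y)))`.
Let `r ≥ 1` and `ε > 0`. We prove that there is a proper closed subset `Z` of `ℙ^n` (it depends on the
`Z_i`, on `r` and `ε` only) and for every finite set `S` of primes a constant `C` such that for all
points `x` of `ℙ^n` of degree `s ≤ r` over `ℚ` outside of `Z`
`∑_{v ∈ S ∪ {∞}} ∑_i k_i ∑_{j < s} w_{i,j} f_{v,i,j} ≤ (n + 1 + ε) h(x) + C`.
Here `f_{v,i,0} ≥ f_{v,i,1} ≥ … ≥ f_{v,i,s-1}` are the numbers `λ_{E_i}(y)` at the `s` conjugates `y` of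
`x` over the algebraic closure of `ℚ_v` in decreasing order, and the weights `w_{i,j}` depend on
`n, k_i, s, j` only, are increasing in `j` and have the sum `1`: `w_{i,j}` is the integral from `j / s` to
`(j + 1) / s` of the quantiles of the beta distribution with the parameters `k_i` and `n + 1 - k_i`,
divided by the mean `k_i / (n + 1)`.

Relation to Vojta's conjecture. Let the set of the `Z_i` be defined over `ℚ` and let `X` be the
variety which one gets from `ℙ^n` by blowing up the `Z_i` in the order of increasing dimension (the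
wonderful compactification for the maximal building set), `E_i` the exceptional divisors (for
hyperplanes: the strict transforms). Then `X` is smooth, `D = ∑_i E_i` has normal crossings,
`K_X = - (n + 1) H + ∑_i (k_i - 1) E_i`, the ideal of `Z_i` generates on `X` the ideal of
`∑_{Z_{i'} ⊆ Z_i} E_{i'}`, and `E_i`, `E_{i'}` meet only if `Z_i ⊆ Z_{i'}` or `Z_{i'} ⊆ Z_i`. So
`λ_{E_i}` above is a local height for `E_i` up to a bounded function. As
`h_{E_i} ≥ ∑_{v ∈ S ∪ {∞}} λ_{E_i,v} + O(1)`, the inequality of Vojta's conjecture for `X` and `D` implies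
`∑_{v ∈ S ∪ {∞}} ∑_i k_i λ_{E_i,v}(x) ≤ (n + 1) h(x) + d(x) + ε h_A(x) + C`. We get this inequality with
an ordered mean instead of the mean over the conjugates, and without the term `d(x)`.

* If for each `v ∈ S ∪ {∞}` the numbers `λ_{E_i}(y)` are the same for all conjugates `y` of `x` then it
  is the last inequality, even without the term `d(x)`.
* For `r = 1` this is Schmidt's subspace theorem. If all `Z_i` are points, then `k_i = n` and
  `w_j = ((j + 1) / s) ^ (1 + 1 / n) - (j / s) ^ (1 + 1 / n)`. For `n = 1` the ordered mean is the mean over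
  all pairs `(y, y')` of conjugates of the minimum of the local heights at `y` and `y'` (Wirsing, see
  `Pool.Agent.T9h24.PairsOfConjugates`).
* As the weights are increasing, the ordered mean is at least `s w_0` times the mean, where `s w_0` is
  of the order of magnitude `s ^ (- 1 / k_i)`, so that for `Z_i` of codimension `k_i` one loses
  `r ^ (1 / k_i)` only.

Proof. Let `N` be the number of monomials of degree `d` in `n + 1` variables. For the image of `x`
under the Veronese embedding of degree `d` we use the intrinsic inequality `T9h24.mainV`: the sum over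
`v` of the mean over all `N`-tuples of conjugates of minus the logarithm of the largest determinant
of `N` functionals on the forms of degree `d` which are at given finitely many products of linear
forms not larger than the evaluations at the conjugates `y_l` is at most `(N + ε) d h(x) + C`, if `x`
is outside of a hypersurface which does not depend on `S`. The `Z_i` for which `λ_{E_i}(y)` is large
form a chain (`T9h24.Ls.exists_chain`). We choose a basis of the linear forms which contains bases of
the spaces of the linear forms which vanish on the members of the chain. The functional is at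
most `exp (- ∑_i a_i λ_{E_i}(y_l))` on the monomials in this basis, where `a_i` is the order of the
monomial along `Z_i` (`T9h24.Ls.flat_val`). By multilinearity the determinant is a sum of products
of `N` such values times a minor. If this minor is not zero then for each `i` and `t` the number of
the `l` with `y_l` near to `Z_i` and `a_i < t` is at most the number of all monomials of order less than
`t` along `Z_i` (`T9h24.Ls.weight_flats`). If `A` is a set of conjugates which are close to `Z_i` then
about `N |A| / s` of the indices belong to conjugates in `A`, and so the sum of the orders is at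
least about the sum of the `N |A| / s` smallest orders of the monomials along `Z_i`. The orders
divided by `d` are distributed like the beta distribution above (`T9h58.Ls.stTheta`). The functions
`τ ↦ λ_{E_i}(τ(x))` are sums of multiples of characteristic functions of such sets `A` (layers), and
this gives the ordered mean. In Lean this is `T9h24.Ls.degL`.
-/

set_option autoImplicit false

namespace Pool.Agent.Results.MP_651af7_nt.LinearSubspaces

open MvPolynomial

/-- The algebraic closure of `ℚ`. -/
abbrev Qbar : Type := AlgebraicClosure ℚ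

variable {n m q : ℕ}

/-- The space of the linear forms which vanish on the `i`-th subspace `Z_i` of `ℙ^n`. It is given by
the linear forms `L i t`, `t < m`, in `n + 1` variables (vectors of coefficients, they may be zero or
linearly dependent), and `Z_i` is the set of their common zeros. Larger subspaces have smaller
spaces of forms. -/
noncomputable def Forms (L : Fin q → Fin m → Fin (n + 1) → Qbar) (i : Fin q) :
    Submodule Qbar (Fin (n + 1) → Qbar) :=
  Submodule.span Qbar (Set.range (L i))

/-- The codimension of the subspace `Z_i`. -/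
noncomputable def codim (L : Fin q → Fin m → Fin (n + 1) → Qbar) (i : Fin q) : ℕ :=
  Module.finrank Qbar (Forms L i)

/-- The `Z_i` are different, nonempty, proper linear subspaces of `ℙ^n`, and the intersection of
any two of them is empty or again one of them. -/
structure IsArrangement (L : Fin q → Fin m → Fin (n + 1) → Qbar) : Prop where
  proper : ∀ i, Forms L i ≠ ⊥
  nonempty : ∀ i, Forms L i ≠ ⊤
  different : ∀ i i', i ≠ i' → Forms L i ≠ Forms L i'
  closed : ∀ i i', Forms L i ⊔ Forms L i' = ⊤ ∨ ∃ i'', Forms L i'' = Forms L i ⊔ Forms L i'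

/-- The local height `log (|y| / max_t |M_t(y)|)` of the subspace of the common zeros of the linear
forms `M t` at the point `y` of projective space: minus the logarithm of the distance of `y` and
the subspace. -/
noncomputable def lambda {F : Type} [NormedField F] (M : Fin m → Fin (n + 1) → F)
    (y : Fin (n + 1) → F) : ℝ :=
  Real.log (‖y‖ / ‖fun t => ∑ l, M t l * y l‖)

/-- The exceptional local height `λ_{E_i}(y) = max (0, λ_{Z_i}(y) - max_{i'} λ_{Z_{i'}}(y))`, where
the inner maximum is over all `Z_{i'}` which are strictly contained in `Z_i`, and it is `0` if there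
are none of them or if it is negative. The coefficients are read in `F` by means of the embedding
`j`. -/
noncomputable def exceptional {F : Type} [NormedField F]
    (L : Fin q → Fin m → Fin (n + 1) → Qbar) (j : Qbar →+* F) (i : Fin q)
    (y : Fin (n + 1) → F) : ℝ :=
  max 0 (lambda (fun t l => j (L i t l)) y - ⨆ i' : {i' // Forms L i < Forms L i'},
    max 0 (lambda (fun t l => j (L i' t l)) y))

/-- `E (B - k)⁺ / (n + 1)` for a binomial random variable `B` with parameters `n + 1` and `c`. This is
the integral over `0 ≤ t ≤ c` of the probability of at least `k` successes in `n` trials with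
probability `t`. -/
noncomputable def tail (n k : ℕ) (c : ℝ) : ℝ :=
  (∑ b ∈ Finset.range (n + 2),
    ((b - k : ℕ) : ℝ) * ((n + 1).choose b) * c ^ b * (1 - c) ^ (n + 1 - b)) / (n + 1)

/-- `(n + 1) / k` times the Legendre transform of `tail n k`. It is the integral over `[0, u]` of the
quantiles of the beta distribution with parameters `k` and `n + 1 - k`, divided by the integral
over `[0, 1]`. It is nondecreasing and convex, and `profile n k 0 = 0`, `profile n k 1 = 1`. -/
noncomputable def profile (n k : ℕ) (u : ℝ) : ℝ :=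
  ((n : ℝ) + 1) / k * ⨆ c : Set.Icc (0 : ℝ) 1, ((c : ℝ) * u - tail n k c)

/-- The weights `w_j`, `j = 0, …, s - 1`. They are nonnegative and increasing (`weight_nonneg`,
`weight_mono`) and their sum is `1` (`weight_sum`). -/
noncomputable def weight (n k s j : ℕ) : ℝ :=
  profile n k (((j : ℝ) + 1) / s) - profile n k ((j : ℝ) / s)

/-- The ordered mean of the numbers `f(τ)`, `τ ∈ T`: it is `∑_j w_j f_j`, where
`f_0 ≥ f_1 ≥ … ≥ f_{s-1}` are these numbers in decreasing order (`orderedMean_eq`). As the
weights are increasing this is the minimum of `∑_j w_j f(π(j))` over all numberings `π` of `T`. -/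
noncomputable def orderedMean (n k : ℕ) {T : Type} [Fintype T] (f : T → ℝ) : ℝ :=
  ⨅ π : Fin (Fintype.card T) ≃ T,
    ∑ j : Fin (Fintype.card T), weight n k (Fintype.card T) j * f (π j)

/-- The sum over `i` of the codimension of `Z_i` times the ordered mean of the exceptional local
heights `λ_{E_i}(y)` at the conjugates `y = τ(x)` of the point `x` over the field `F`. -/
noncomputable def proximity {E : Type} [Field E] [NumberField E] {F : Type}
    [NormedField F] [CharZero F] [IsAlgClosed F] (L : Fin q → Fin m → Fin (n + 1) → Qbar)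
    (j : Qbar →+* F) (x : Fin (n + 1) → E) : ℝ :=
  ∑ i, codim L i * orderedMean n (codim L i) fun τ : E →+* F =>
    exceptional L j i (fun l => τ (x l))

/-- The absolute logarithmic height of a point of projective space over the number field `E`. -/
noncomputable def height {E : Type} [Field E] [NumberField E] (x : Fin (n + 1) → E) : ℝ :=
  Height.logHeight x / Module.finrank ℚ E

/-! ### The weights -/

theorem profile_eq (n k : ℕ) (u : ℝ) :
    profile n k u = ((n : ℝ) + 1) / k * Pool.Agent.T9h24.Ls.gk n k u := rfl

theorem weight_eq (n k s j : ℕ) : weight n k s j = ((n : ℝ) + 1) / k *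
    (Pool.Agent.T9h24.Ls.gk n k (((j : ℝ) + 1) / s) -
      Pool.Agent.T9h24.Ls.gk n k ((j : ℝ) / s)) := by
  unfold weight
  rw [profile_eq, profile_eq, mul_sub]

theorem weight_nonneg (n k s j : ℕ) : 0 ≤ weight n k s j := by
  rw [weight_eq]
  refine mul_nonneg (by positivity) (sub_nonneg.2 (Pool.Agent.T9h24.Ls.gk_mono n k ?_))
  exact div_le_div_of_nonneg_right (by linarith) (Nat.cast_nonneg _)

theorem weight_mono {n k s : ℕ} {j j' : ℕ} (h : j ≤ j') : weight n k s j ≤ weight n k s j' := by
  induction j', h using Nat.le_induction with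
  | base => exact le_rfl
  | succ j' _ ih =>
    refine ih.trans ?_
    rw [weight_eq, weight_eq]
    refine mul_le_mul_of_nonneg_left ?_ (by positivity)
    have h1 := Pool.Agent.T9h24.Ls.gk_mid n k ((j' : ℝ) / s) (((j' : ℝ) + 2) / s)
    have h2 : ((j' : ℝ) / s + ((j' : ℝ) + 2) / s) / 2 = ((j' : ℝ) + 1) / s := by ring
    rw [h2] at h1
    push_cast
    have h3 : (j' : ℝ) + 1 + 1 = j' + 2 := by ring
    rw [h3]
    linarith

theorem weight_sum {n k s : ℕ} (hk : 1 ≤ k) (hkn : k ≤ n)
    (hs : 1 ≤ s) : ∑ j : Fin s, weight n k s j = 1 := by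
  have h1 : ∑ j : Fin s, weight n k s j = ∑ j ∈ Finset.range s,
      (profile n k (((j + 1 : ℕ) : ℝ) / s) - profile n k ((j : ℝ) / s)) := by
    rw [Finset.sum_range]
    refine Finset.sum_congr rfl fun j _ => ?_
    unfold weight
    push_cast
    rfl
  have hs0 : (s : ℝ) ≠ 0 := by positivity
  have hk0 : (k : ℝ) ≠ 0 := by positivity
  have hn0 : (n : ℝ) + 1 ≠ 0 := by positivity
  obtain ⟨h2, h3⟩ := Pool.Agent.T9h58.Ls.stEnds n k hk hkn
  rw [h1, Finset.sum_range_sub (fun j : ℕ => profile n k ((j : ℝ) / s)), div_self hs0,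
    Nat.cast_zero, zero_div, profile_eq, profile_eq, h2, h3]
  field_simp
  ring

/-- The ordered mean is the sum `∑_j w_j f_j` for the decreasing order. -/
theorem orderedMean_eq (n k : ℕ) {T : Type} [Fintype T] (f : T → ℝ)
    (π : Fin (Fintype.card T) ≃ T) (h : Antitone fun j => f (π j)) :
    orderedMean n k f =
      ∑ j : Fin (Fintype.card T), weight n k (Fintype.card T) j * f (π j) := by
  have hne : Nonempty (Fin (Fintype.card T) ≃ T) := ⟨π⟩
  refine le_antisymm (ciInf_le (Set.finite_range _).bddBelow π) (le_ciInf fun ρ => ?_)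
  have h1 : Antivary (fun j : Fin (Fintype.card T) => weight n k (Fintype.card T) j)
      (fun j => f (π j)) := by
    intro a b hab
    have h2 : b < a := by
      by_contra h3
      exact absurd (h (not_lt.1 h3)) (not_le.2 hab)
    exact weight_mono h2.le
  have h2 := h1.sum_mul_le_sum_mul_comp_perm (σ := ρ.trans π.symm)
  refine h2.trans (le_of_eq (Finset.sum_congr rfl fun j _ => ?_))
  simp

theorem orderedMean_LstG (n k : ℕ) {T : Type} [Fintype T] {s : ℕ}
    (hs : Fintype.card T = s) (f : T → ℝ) :
    orderedMean n k f = ((n : ℝ) + 1) / k *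
      Pool.Agent.T9h24.LstG (Pool.Agent.T9h24.Ls.gk n k) s f := by
  subst hs
  unfold orderedMean Pool.Agent.T9h24.LstG
  rw [Real.mul_iInf_of_nonneg (by positivity)]
  refine iInf_congr fun π => ?_
  rw [Finset.mul_sum]
  refine Finset.sum_congr rfl fun j _ => ?_
  rw [weight_eq]
  ring

/-! ### Scaling -/

theorem lambda_smul {F : Type} [NormedField F] (M : Fin m → Fin (n + 1) → F) (c : F) (hc : c ≠ 0)
    (y : Fin (n + 1) → F) : lambda M (c • y) = lambda M y := by
  have h1 : (fun t => ∑ l, M t l * (c • y) l) = c • fun t => ∑ l, M t l * y l := by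
    funext t
    rw [Pi.smul_apply, smul_eq_mul, Finset.mul_sum]
    refine Finset.sum_congr rfl fun l _ => ?_
    rw [Pi.smul_apply, smul_eq_mul]
    ring
  unfold lambda
  rw [h1, norm_smul, norm_smul, mul_div_mul_left _ _ (norm_ne_zero_iff.2 hc)]

theorem exceptional_mul {E : Type} [Field E] {F : Type} [NormedField F]
    (L : Fin q → Fin m → Fin (n + 1) → Qbar) (j : Qbar →+* F) (i : Fin q)
    (τ : E →+* F) (x : Fin (n + 1) → E) (c : E) (hc : c ≠ 0) :
    exceptional L j i (fun l => τ (c * x l)) = exceptional L j i (fun l => τ (x l)) := by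
  have h1 : (fun l => τ (c * x l)) = τ c • fun l => τ (x l) := by
    funext l
    rw [map_mul, Pi.smul_apply, smul_eq_mul]
  unfold exceptional
  simp only [h1, lambda_smul _ _ ((map_ne_zero τ).2 hc)]

theorem eval_smul_form {F : Type} [Field F] {d : ℕ} {P : MvPolynomial (Fin (n + 1)) F}
    (hP : P.IsHomogeneous d) (c : F) (y : Fin (n + 1) → F) :
    eval (c • y) P = c ^ d * eval y P := by
  rw [eval_eq', eval_eq', Finset.mul_sum]
  refine Finset.sum_congr rfl fun a ha => ?_
  have h1 : a.degree = d := by
    by_contra h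
    exact mem_support_iff.1 ha (hP.coeff_eq_zero h)
  simp only [Pi.smul_apply, smul_eq_mul, mul_pow]
  rw [Finset.prod_mul_distrib, Finset.prod_pow_eq_pow_sum, ← Finsupp.degree_eq_sum, h1]
  ring

theorem codim_pos {L : Fin q → Fin m → Fin (n + 1) → Qbar} (hL : IsArrangement L) (i : Fin q) :
    1 ≤ codim L i := by
  have h1 : codim L i ≠ 0 := fun h0 => hL.proper i (Submodule.finrank_eq_zero.1 h0)
  omega

theorem codim_le {L : Fin q → Fin m → Fin (n + 1) → Qbar} (hL : IsArrangement L) (i : Fin q) :
    codim L i ≤ n := by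
  have h1 := Submodule.finrank_lt (hL.nonempty i)
  rw [Module.finrank_fin_fun] at h1
  have h2 : codim L i < n + 1 := h1
  omega

/-- The sum for one place. -/
theorem proximity_eq {s : ℕ} {F : Type} [NormedField F] [CharZero F]
    [IsAlgClosed F] {E : Type} [Field E] [NumberField E] (hcard : Fintype.card (E →+* F) = s)
    (L : Fin q → Fin m → Fin (n + 1) → Qbar) (hL : IsArrangement L) (j : Qbar →+* F)
    (x y : Fin (n + 1) → E) (c : E) (hc : c ≠ 0) (hy : ∀ l, y l = c * x l) :
    proximity L j x = ((n : ℝ) + 1) * ∑ i, Pool.Agent.T9h24.LstG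
      (Pool.Agent.T9h24.Ls.gk n (Module.finrank Qbar (Pool.Agent.T9h24.Ls.Us L i))) s
      (fun τ : E →+* F => Pool.Agent.T9h24.Ls.exh L j i (fun l => τ (y l))) := by
  unfold proximity
  rw [Finset.mul_sum]
  refine Finset.sum_congr rfl fun i _ => ?_
  rw [orderedMean_LstG n (codim L i) hcard, ← mul_assoc]
  have hk0 : (codim L i : ℝ) ≠ 0 := by
    have := codim_pos hL i
    positivity
  congr 1
  · field_simp
  · have h1 : (fun τ : E →+* F => exceptional L j i (fun l => τ (x l))) =
        fun τ : E →+* F => Pool.Agent.T9h24.Ls.exh L j i (fun l => τ (y l)) := by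
      funext τ
      rw [show (fun l => τ (y l)) = fun l => τ (c * x l) from funext fun l => by rw [hy]]
      exact (exceptional_mul L j i τ x c hc).symm
    rw [h1]
    rfl

/-- **Algebraic points of bounded degree near linear subspaces.** Let `Z_i`, `i < q`, be different
nonempty proper linear subspaces of `ℙ^n`, `n ≥ 1`, over the algebraic closure of `ℚ`, such that the
intersection of two of them is empty or one of them. For all `r` and `ε > 0` there is a finite set `Z`
of nonzero forms over the algebraic closure of `ℚ` with the following property. For all finite sets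
`S` of primes there is a constant `C` such that for all points `x` of `ℙ^n` over number fields `E` of
degree at most `r` such that no conjugate of `x` is a zero of a form in `Z`, and for all embeddings of
the algebraic closure of `ℚ` in the algebraic closures of the `ℚ_v`,
`∑_{v ∈ S ∪ {∞}} ∑_i k_i ∑_j w_{i,j} f_{v,i,j} ≤ (n + 1 + ε) h(x) + C`.
Here `k_i` is the codimension of `Z_i` and `f_{v,i,0} ≥ f_{v,i,1} ≥ …` are the exceptional local heights
`λ_{E_i}(τ(x))`, `τ` the embeddings of `E` in the algebraic closure of `ℚ_v`, in decreasing order. -/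
theorem result (n m q r : ℕ) (hn : 1 ≤ n) (L : Fin q → Fin m → Fin (n + 1) → Qbar)
    (hL : IsArrangement L) (ε : ℝ) (hε : 0 < ε) :
    ∃ Z : Finset (MvPolynomial (Fin (n + 1)) Qbar),
      (∀ Q ∈ Z, Q ≠ 0 ∧ ∃ t, Q.IsHomogeneous t) ∧
      ∀ S : Finset Nat.Primes, ∃ C : ℝ,
        ∀ (E : Type) [Field E] [NumberField E], Module.finrank ℚ E ≤ r →
        ∀ x : Fin (n + 1) → E, x ≠ 0 →
        (∀ Q ∈ Z, ∀ τ : E →+* Qbar, eval (fun i => τ (x i)) Q ≠ 0) →
        ∀ (j : Qbar →+* ℂ) (jp : ∀ p : Nat.Primes, Qbar →+* PadicAlgCl p),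
          proximity L j x + ∑ p ∈ S, proximity L (jp p) x ≤
            ((n : ℝ) + 1 + ε) * height x + C := by
  classical
  have hn0 : (0 : ℝ) < n := by exact_mod_cast hn
  -- the parameters
  set κ : ℝ := (n : ℝ) + 1 with hκ
  have hκ0 : 0 < κ := by positivity
  set δ : ℝ := min 1 (ε / (3 * κ)) with hδ
  have hδ0 : 0 < δ := lt_min one_pos (by positivity)
  have hδ1 : δ ≤ 1 := min_le_left _ _
  have hδ2 : δ * (3 * κ) ≤ ε := by
    have h1 : δ ≤ ε / (3 * κ) := min_le_right _ _
    rwa [le_div_iff₀ (by positivity)] at h1
  set η : ℝ := 1 / (1 + δ) with hηd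
  have hη0 : 0 < η := by positivity
  have hη1 : η < 1 := by
    rw [hηd, div_lt_one (by linarith)]
    linarith
  have hinj : Function.Injective (Pool.Agent.T9h24.Ls.Us L) := by
    intro i i' h
    by_contra hne
    exact hL.different i i' hne h
  have hZs : ∀ s : ℕ, ∃ Z : Finset (MvPolynomial (Fin (n + 1)) Qbar),
      1 ≤ s → s ≤ r → (∀ Q ∈ Z, Q ≠ 0 ∧ ∃ t, Q.IsHomogeneous t) ∧
      ∀ S : Finset Nat.Primes, ∃ Cc : ℝ, ∀ (E : Type) [Field E]
        [NumberField E], Module.finrank ℚ E = s → ∀ x : Fin (n + 1) → E, x ≠ 0 →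
        (∀ Q ∈ Z, ∀ τ : E →+* Qbar, eval (fun i => τ (x i)) Q ≠ 0) →
        ∀ (j : Qbar →+* ℂ) (jp : ∀ p : Nat.Primes, Qbar →+* PadicAlgCl p),
          proximity L j x + ∑ p ∈ S, proximity L (jp p) x ≤ (κ + ε) * height x + Cc := by
    intro s
    by_cases hs : 1 ≤ s ∧ s ≤ r
    · obtain ⟨hs1, hsr⟩ := hs
      obtain ⟨Z, hZ, h⟩ := Pool.Agent.T9h24.Ls.degL Pool.Agent.T9h58.Ls.stTheta
        Pool.Agent.T9h58.Ls.stEnds n s hn hs1 L hL.proper hL.nonempty hinj hL.closed η hη0.le hη1
      refine ⟨Z, fun _ _ => ⟨hZ, fun S => ?_⟩⟩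
      obtain ⟨Cc, hC⟩ := h S δ hδ0
      have hs0 : (0 : ℝ) < s := by exact_mod_cast hs1
      refine ⟨κ * ((1 + δ) * |Cc|), fun E _ _ hE x hx hxZ j jp => ?_⟩
      -- integral coordinates
      obtain ⟨a, ha0, ha⟩ := exists_integral_multiples ℤ ℚ (Finset.univ.image x)
      have hint : ∀ i, ∃ w : NumberField.RingOfIntegers E, (w : E) = (a : E) * x i := by
        intro i
        have h1 := ha (x i) (Finset.mem_image_of_mem _ (Finset.mem_univ i))
        rw [zsmul_eq_mul] at h1
        exact ⟨⟨_, h1⟩, rfl⟩
      choose x' hx' using hint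
      have haE : (a : E) ≠ 0 := by exact_mod_cast ha0
      have hx'0 : x' ≠ 0 := by
        intro h0
        apply hx
        funext i
        have h1 := hx' i
        rw [h0] at h1
        have h2 : (a : E) * x i = 0 := by rw [← h1]; rfl
        exact (mul_eq_zero.1 h2).resolve_left haE
      have hx'f : (fun i => (x' i : E)) = fun i => (a : E) * x i := funext hx'
      have hmain := hC E hE x' hx'0 (by
        intro Q hQ τ h0
        apply hxZ Q hQ τ
        obtain ⟨t, ht⟩ := (hZ Q hQ).2
        have h1 : (fun i => τ (x' i : E)) = τ (a : E) • fun i => τ (x i) := by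
          funext i
          rw [Pi.smul_apply, smul_eq_mul, hx', map_mul]
        rw [h1, eval_smul_form ht] at h0
        exact (mul_eq_zero.1 h0).resolve_left (pow_ne_zero _ ((map_ne_zero τ).2 haE)))
        j jp
      have hht : Height.logHeight (fun i => (x' i : E)) = Height.logHeight x := by
        rw [hx'f]
        exact Height.logHeight_smul_eq_logHeight x haE
      have hh : Height.logHeight x / s = height x := by
        unfold height
        rw [hE]
      rw [hht, hh] at hmain
      have hcard : Fintype.card (E →+* ℂ) = s := by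
        rw [Pool.Agent.T9h24.card_emb ℂ, hE]
      have hcardp : ∀ p : Nat.Primes, Fintype.card (E →+* PadicAlgCl p) = s := fun p => by
        rw [Pool.Agent.T9h24.card_emb (PadicAlgCl p), hE]
      have hP1 := proximity_eq hcard L hL j x (fun l => (x' l : E)) (a : E) haE hx'
      have hP2 : ∀ p ∈ S, _ := fun p (_ : p ∈ S) => proximity_eq (hcardp p) L hL (jp p) x
        (fun l => (x' l : E)) (a : E) haE hx'
      have hP3 := Finset.sum_congr rfl hP2
      rw [← Finset.mul_sum] at hP3
      rw [← hκ] at hP1 hP3
      rw [hP1, hP3]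
      set A1 := ∑ i, Pool.Agent.T9h24.LstG (Pool.Agent.T9h24.Ls.gk n
        (Module.finrank Qbar (Pool.Agent.T9h24.Ls.Us L i))) s (fun τ : E →+* ℂ =>
        Pool.Agent.T9h24.Ls.exh L j i (fun l => τ (x' l : E))) with hA1
      set A2 := ∑ p ∈ S, ∑ i, Pool.Agent.T9h24.LstG (Pool.Agent.T9h24.Ls.gk n
        (Module.finrank Qbar (Pool.Agent.T9h24.Ls.Us L i))) s (fun τ : E →+* PadicAlgCl p =>
        Pool.Agent.T9h24.Ls.exh L (jp p) i (fun l => τ (x' l : E))) with hA2
      have hh0 : 0 ≤ height x := div_nonneg (Height.logHeight_nonneg _) (Nat.cast_nonneg _)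
      have hA12 : A1 + A2 ≤ (1 + δ) * ((1 + δ) * height x + |Cc|) := by
        have h1 : η * (A1 + A2) ≤ (1 + δ) * height x + |Cc| := by
          have := le_abs_self Cc
          linarith
        rw [hηd, one_div, inv_mul_le_iff₀ (by linarith)] at h1
        exact h1
      have h1 : κ * (A1 + A2) ≤ κ * ((1 + δ) * ((1 + δ) * height x + |Cc|)) :=
        mul_le_mul_of_nonneg_left hA12 hκ0.le
      have h2 : κ * ((1 + δ) * (1 + δ)) ≤ κ + ε := by nlinarith
      have h3 : κ * ((1 + δ) * (1 + δ)) * height x ≤ (κ + ε) * height x :=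
        mul_le_mul_of_nonneg_right h2 hh0
      nlinarith
    · exact ⟨∅, fun h1 h2 => absurd ⟨h1, h2⟩ hs⟩
  choose Zs hZs using hZs
  refine ⟨(Finset.Icc 1 r).biUnion Zs, fun Q hQ => ?_, fun S => ?_⟩
  · obtain ⟨s, hs, hs'⟩ := Finset.mem_biUnion.1 hQ
    exact (hZs s (Finset.mem_Icc.1 hs).1 (Finset.mem_Icc.1 hs).2).1 Q hs'
  · have hCs : ∀ s : ℕ, ∃ Cc : ℝ, 1 ≤ s → s ≤ r → ∀ (E : Type) [Field E]
        [NumberField E], Module.finrank ℚ E = s → ∀ x : Fin (n + 1) → E, x ≠ 0 →
        (∀ Q ∈ Zs s, ∀ τ : E →+* Qbar, eval (fun i => τ (x i)) Q ≠ 0) →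
        ∀ (j : Qbar →+* ℂ) (jp : ∀ p : Nat.Primes, Qbar →+* PadicAlgCl p),
          proximity L j x + ∑ p ∈ S, proximity L (jp p) x ≤ (κ + ε) * height x + Cc := by
      intro s
      by_cases hs : 1 ≤ s ∧ s ≤ r
      · obtain ⟨Cc, hC⟩ := (hZs s hs.1 hs.2).2 S
        exact ⟨Cc, fun _ _ => hC⟩
      · exact ⟨0, fun h1 h2 => absurd ⟨h1, h2⟩ hs⟩
    choose Cs hCs using hCs
    refine ⟨∑ s ∈ Finset.Icc 1 r, |Cs s|, fun E _ _ hE x hx hxZ j jp => ?_⟩
    have hpos : 1 ≤ Module.finrank ℚ E := Module.finrank_pos
    have hmem : Module.finrank ℚ E ∈ Finset.Icc 1 r := Finset.mem_Icc.2 ⟨hpos, hE⟩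
    have h1 := hCs _ hpos hE E rfl x hx (fun Q hQ => hxZ Q
      (Finset.mem_biUnion.2 ⟨_, hmem, hQ⟩)) j jp
    have h2 : |Cs (Module.finrank ℚ E)| ≤ ∑ s ∈ Finset.Icc 1 r, |Cs s| :=
      Finset.single_le_sum (f := fun s => |Cs s|) (fun s _ => abs_nonneg _) hmem
    have h3 := le_abs_self (Cs (Module.finrank ℚ E))
    linarith

end Pool.Agent.Results.MP_651af7_nt.LinearSubspaces
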