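import Mathlib
import Pool.Agent.T9h24.Ygp

/-!
# Ordered local heights of algebraic points of bounded degree

Let `X` be a geometrically integral closed subvariety of dimension `ν ≥ 1` of a projective space
over `ℚ`, and let `H_1, …, H_q` be forms over the algebraic closure of `ℚ` of degrees
`d_1, …, d_q ≥ 1` such that the divisors `D_i = {H_i = 0}` of `X` are in general position: no
`ν + 1` of them have a common point. This is the case if `∑ D_i` has normal crossings. Let `r ≥ 1`
and `ε > 0`. We prove that there is a proper closed subset `Z` of `X`, which depends on `X`, `H`,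
`r` and `ε` only, as in Vojta's conjecture, and for every finite set `S` of primes a constant `C`
such that for all points `x` of `X` of degree `s ≤ r` over `ℚ` outside of `Z`
`∑_{v ∈ S ∪ {∞}} ∑_i ∑_{j < s} w_j f_{v,i,j} ≤ (ν + 1 + ε) h(x) + C`.
Here `f_{v,i,0} ≥ f_{v,i,1} ≥ … ≥ f_{v,i,s-1}` are the local heights `λ_{D_i,v}(y) / d_i` of the
`s` conjugates `y` of `x` over the algebraic closure of `ℚ_v` in decreasing order, and
`w_j = g((j + 1) / s) - g(j / s)`, `g(u) = 1 - (ν + 1) (1 - u) + ν (1 - u) ^ (1 + 1 / ν)`.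
The weights are increasing, `0 < w_0 ≤ w_1 ≤ … ≤ w_{s-1}`, and their sum is `1`. If all of
them were `1 / s`, the left side would be `∑_v ∑_i λ_{D_i,v}(x) / d_i`, and the inequality would
be, for hyperplanes of `ℙ^n`, the one of Vojta's conjecture without the term `d(x)`, which does not
hold in general. So the conjugates which are closer to `D_i` count less.

* If for each `v ∈ S ∪ {∞}` all conjugates of `x` have the same local heights (for instance if the
  `D_i` are defined over `ℚ` and `ℚ(x)` has only one place above `v`) then the left side is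
  `∑_v ∑_i λ_{D_i,v}(x) / d_i`: for hyperplanes of `ℙ^n` this is the inequality of Vojta's
  conjecture, even without the term `d(x)`.
* In general `w_j ≥ w_0 = (ν + 1) / (s K(ν, s))` (`mean_le`), hence
  `∑_v ∑_i λ_{D_i,v}(x) / d_i ≤ (K(ν, r) + ε) h(x) + C`,
  `K(ν, r) = (ν + 1) / (1 - ν (r - 1) (1 - (1 - 1 / r) ^ (1 / ν)))`.
  For `r = 1`, `K(ν, 1) = ν + 1`, this is the theorem of Evertse and Ferretti (Corvaja and Zannier,
  Ru), with an exceptional set independent of `S` as in Vojta's refinement of Schmidt's theorem.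
  `K(1, r) = 2 r` as in Wirsing's theorem, `K(2, 2) = 3 + 3 √2 = 7.24…`, `K(2, 3) = 11.28…`,
  `K(3, 2) = 10.49…`, and `K(ν, r) = 2 ν r - (2 / 3) (ν - 1) + o(1)` for `r → ∞`. In particular,
  if `q > K(ν, r)` then for every `S` the `S`-integral points of `X - ∑ D_i` of degree at
  most `r` outside of `Z` are finite in number, with `Z` independent of `S`.
* For `ν = 1`, `w_j = (2 j + 1) / s ^ 2` and the ordered mean is the mean over all pairs `(y, y')` of
  conjugates of the minimum of the local heights at `y` and `y'`; for `X = ℙ^1` see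
  `Pool.Agent.T9h24.PairsOfConjugates`.
* With the minimum over the conjugates instead of the ordered mean this is, for hyperplanes of
  `ℙ^n`, contained in the absolute subspace theorem of Evertse and Schlickewei.
* The divisors need not be in general position: at each place and each conjugate only those in
  a set `A_v(τ)` of divisors in general position are counted, and these sets may be chosen.

Proof. Let `A_M` be the part of degree `M` of the homogeneous coordinate ring of `X` over the
algebraic closure of `ℚ`, `N = dim A_M`. Monomials which are a basis of `A_M` map `X` to a projective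
space of dimension `N - 1`. For the points of degree `s` of this space we use the intrinsic
inequality `T9h24.mainI`: the sum over `v` of the mean over all `N`-tuples of conjugates of minus the
logarithm of the largest determinant of `N` functionals on `A_M`, which are at given finitely many
elements of `A_M` not larger than the evaluations at the conjugates `y_l`, is at most
`(N + ε) M h(x) + C`, if `x` is outside of a hypersurface which does not depend on `S`.
Only the `ν + 1` largest local heights of a conjugate matter; they belong to forms (powers of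
`H_{e(0)}, …, H_{e(ν)}`) `z_0, …, z_ν` of the same degree `D` without common zeros on `X`. For
suitable large `M` there is a basis of `A_M` which consists, up to `o(N)` elements, of products
`z_0^{a_0} ⋯ z_ν^{a_ν} m` of total degree `M`, `m` in a finite set of monomials, and the coordinates of
the functional of the conjugate `y_l` are at most `exp (- ∑_k a_k λ_{z_k}(y_l))`. By multilinearity
the determinant is bounded by products of `N` such coordinates, such that the dual vectors of
the basis elements which occur are linearly independent. The dual vectors with `a_k < θ` vanish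
on the multiples of `z_k^θ`. Hence, although the bases of different conjugates are different, at
most `dim A_M - dim A_{M - θ D}` of the basis elements which belong to conjugates whose bases involve
the same `z_k` have exponent `a_k < θ`. If `A` is a set of such conjugates then about
`N |A| / s` of the indices belong to conjugates in `A`, and the sum of their exponents `a_k` is at
least about `(N M / D) g(|A| / s) / (ν + 1)`. For each divisor the local heights of the conjugates
are sums of multiples of characteristic functions of such sets `A` (layers), and this gives the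
ordered mean. In Lean this is `T9h24.degY`.
-/

set_option autoImplicit false

namespace Pool.Agent.Results.MP_651af7_nt.OrderedLocalHeights

open MvPolynomial

/-- The algebraic closure of `ℚ`. -/
abbrev Qbar : Type := AlgebraicClosure ℚ

variable {m n q : ℕ}

/-- The ideal generated by the forms `G` over the algebraic closure of `ℚ`. -/
noncomputable def ideal (G : Fin m → MvPolynomial (Fin (n + 1)) ℚ) :
    Ideal (MvPolynomial (Fin (n + 1)) Qbar) :=
  Ideal.span (Set.range fun k => map (algebraMap ℚ Qbar) (G k))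

/-- `X = {G = 0}` is a geometrically integral closed subvariety of dimension `ν` of `ℙ^n` over
`ℚ`: the `G k` are forms, they generate a prime ideal over the algebraic closure of `ℚ`, and the
homogeneous coordinate ring has transcendence degree `ν + 1`. -/
structure IsVariety (G : Fin m → MvPolynomial (Fin (n + 1)) ℚ) (ν : ℕ) : Prop where
  isHomogeneous : ∀ k, ∃ g, (G k).IsHomogeneous g
  isPrime : (ideal G).IsPrime
  dim : Algebra.trdeg Qbar (MvPolynomial (Fin (n + 1)) Qbar ⧸ ideal G) = ν + 1

/-- The point with homogeneous coordinates `x` lies on `X = {G = 0}`. -/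
def On (G : Fin m → MvPolynomial (Fin (n + 1)) ℚ) {E : Type} [Field E] [CharZero E]
    (x : Fin (n + 1) → E) : Prop :=
  ∀ k, aeval x (G k) = 0

/-- The divisors `H i = 0`, `i ∈ A`, of the variety `X = {G = 0}` of dimension `ν` are in general
position: `A` has at least `ν + 1` elements, and no `ν + 1` of these divisors have a common
point. -/
def GeneralPosition (G : Fin m → MvPolynomial (Fin (n + 1)) ℚ) (ν : ℕ)
    (H : Fin q → MvPolynomial (Fin (n + 1)) Qbar) (A : Finset (Fin q)) : Prop :=
  ν + 1 ≤ A.card ∧ ∀ B ⊆ A, B.card = ν + 1 →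
    ∀ x : Fin (n + 1) → Qbar, On G x → (∀ i ∈ B, eval x (H i) = 0) → x = 0

/-- The local height `log (|y| ^ d / |P(y)|)` of the hypersurface `P = 0` of degree `d` at the
point `y` of projective space, with the maximum norm. -/
noncomputable def lambda {F : Type} [NormedField F] (d : ℕ) (P : MvPolynomial (Fin (n + 1)) F)
    (y : Fin (n + 1) → F) : ℝ :=
  Real.log (‖y‖ ^ d / ‖eval y P‖)

/-- The function `g(u) = 1 - (ν + 1) (1 - u) + ν (1 - u) ^ (1 + 1 / ν)`. It is increasing and
convex on `[0, 1]`, `g(0) = 0` and `g(1) = 1`. -/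
noncomputable def profile (ν : ℕ) (u : ℝ) : ℝ :=
  1 - ((ν : ℝ) + 1) * (1 - u) + ν * (1 - u) ^ (1 + 1 / (ν : ℝ))

/-- The weights `w_j = g((j + 1) / s) - g(j / s)`, `j = 0, …, s - 1`. They are nonnegative and
increasing (`weight_nonneg`, `weight_mono`) and their sum is `1` (`weight_sum`). -/
noncomputable def weight (ν s j : ℕ) : ℝ :=
  profile ν (((j : ℝ) + 1) / s) - profile ν ((j : ℝ) / s)

/-- The ordered mean of the numbers `f(τ)`, `τ ∈ T`: it is `∑_j w_j f_j`, where
`f_0 ≥ f_1 ≥ … ≥ f_{s-1}` are these numbers in decreasing order (`orderedMean_eq`). As the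
weights are increasing this is the minimum of `∑_j w_j f(π(j))` over all numberings `π` of `T`. -/
noncomputable def orderedMean (ν : ℕ) {T : Type} [Fintype T] (f : T → ℝ) : ℝ :=
  ⨅ π : Fin (Fintype.card T) ≃ T, ∑ j : Fin (Fintype.card T), weight ν (Fintype.card T) j * f (π j)

/-- The sum over `i` of the ordered means, over the conjugates `y = τ(x)` of the point `x` over
the field `F`, of the local heights `λ_{H_i}(y) / d_i`, where at the conjugate `τ(x)` only
the `i ∈ A(τ)` are counted. The coefficients of the `H i` are read in `F` by means of the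
embedding `j`. -/
noncomputable def proximity (ν : ℕ) {E : Type} [Field E] [NumberField E] {F : Type}
    [NormedField F] [CharZero F] [IsAlgClosed F] (H : Fin q → MvPolynomial (Fin (n + 1)) Qbar)
    (d : Fin q → ℕ) (j : Qbar →+* F) (A : (E →+* F) → Finset (Fin q))
    (x : Fin (n + 1) → E) : ℝ :=
  ∑ i, orderedMean ν fun τ : E →+* F =>
    if i ∈ A τ then lambda (d i) (map j (H i)) (fun l => τ (x l)) / d i else 0

/-- The absolute logarithmic height of a point of projective space over the number field `E`. -/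
noncomputable def height {E : Type} [Field E] [NumberField E] (x : Fin (n + 1) → E) : ℝ :=
  Height.logHeight x / Module.finrank ℚ E

/-! ### The weights -/

theorem profile_eq (ν : ℕ) (u : ℝ) :
    profile ν u = ((ν : ℝ) + 1) * Pool.Agent.T9h24.gq ν u := by
  unfold profile Pool.Agent.T9h24.gq
  have h0 : (ν : ℝ) + 1 ≠ 0 := by positivity
  field_simp

theorem weight_eq (ν s j : ℕ) : weight ν s j = ((ν : ℝ) + 1) *
    (Pool.Agent.T9h24.gq ν (((j : ℝ) + 1) / s) - Pool.Agent.T9h24.gq ν ((j : ℝ) / s)) := by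
  unfold weight
  rw [profile_eq, profile_eq, mul_sub]

theorem weight_nonneg {ν s : ℕ} (hν : 1 ≤ ν) (hs : 1 ≤ s) (j : Fin s) : 0 ≤ weight ν s j := by
  rw [weight_eq]
  exact mul_nonneg (by positivity) (Pool.Agent.T9h24.weight_nonneg hν hs j)

theorem weight_sum (ν : ℕ) {s : ℕ} (hs : 1 ≤ s) : ∑ j : Fin s, weight ν s j = 1 := by
  have h1 : ∑ j : Fin s, weight ν s j = ∑ j ∈ Finset.range s,
      (profile ν (((j + 1 : ℕ) : ℝ) / s) - profile ν ((j : ℝ) / s)) := by
    rw [Finset.sum_range]
    refine Finset.sum_congr rfl fun j _ => ?_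
    unfold weight
    push_cast
    rfl
  have hs0 : (s : ℝ) ≠ 0 := by positivity
  rw [h1, Finset.sum_range_sub (fun j : ℕ => profile ν ((j : ℝ) / s)), div_self hs0,
    Nat.cast_zero, zero_div]
  unfold profile
  have h2 : (0 : ℝ) < 1 + 1 / (ν : ℝ) := by positivity
  rw [sub_self, Real.zero_rpow h2.ne', sub_zero, Real.one_rpow]
  ring

theorem weight_mono {ν s : ℕ} {j k : ℕ} (hjk : j ≤ k) (hk : k < s) :
    weight ν s j ≤ weight ν s k := by
  induction k, hjk using Nat.le_induction with
  | base => exact le_rfl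
  | succ k _ ih =>
    refine (ih (by omega)).trans ?_
    have hs0 : (0 : ℝ) < s := by exact_mod_cast (by omega : 0 < s)
    have hk2 : ((k : ℝ) + 2) / s ≤ 1 := by
      rw [div_le_one hs0]
      exact_mod_cast (by omega : k + 2 ≤ s)
    have hp : (1 : ℝ) ≤ 1 + 1 / (ν : ℝ) := by
      have : 0 ≤ 1 / (ν : ℝ) := by positivity
      linarith
    have hx : 1 - (k : ℝ) / s ∈ Set.Ici (0 : ℝ) := by
      have h3 : (k : ℝ) / s ≤ ((k : ℝ) + 2) / s :=
        div_le_div_of_nonneg_right (by linarith) hs0.le
      exact Set.mem_Ici.2 (by linarith)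
    have hy : 1 - ((k : ℝ) + 2) / s ∈ Set.Ici (0 : ℝ) := Set.mem_Ici.2 (by linarith)
    have h1 := (convexOn_rpow hp).2 hx hy (show (0 : ℝ) ≤ 1 / 2 by norm_num)
      (show (0 : ℝ) ≤ 1 / 2 by norm_num) (by norm_num)
    simp only [smul_eq_mul] at h1
    have h2 : (1 : ℝ) / 2 * (1 - (k : ℝ) / s) + 1 / 2 * (1 - ((k : ℝ) + 2) / s) =
        1 - ((k : ℝ) + 1) / s := by
      field_simp
      ring
    rw [h2] at h1
    unfold weight profile
    push_cast
    have h3 : (k : ℝ) + 1 + 1 = k + 2 := by ring
    rw [h3]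
    have h4 : ((k : ℝ) + 1) / s = k / s + 1 / s := by ring
    have h5 : ((k : ℝ) + 2) / s = k / s + 2 * (1 / s) := by ring
    have h6 : (ν : ℝ) * (1 - ((k : ℝ) + 1) / s) ^ (1 + 1 / (ν : ℝ)) ≤
        ν * (1 / 2 * (1 - (k : ℝ) / s) ^ (1 + 1 / (ν : ℝ)) +
          1 / 2 * (1 - ((k : ℝ) + 2) / s) ^ (1 + 1 / (ν : ℝ))) :=
      mul_le_mul_of_nonneg_left h1 (Nat.cast_nonneg _)
    set P0 := (1 - (k : ℝ) / s) ^ (1 + 1 / (ν : ℝ)) with hP0
    set P1 := (1 - ((k : ℝ) + 1) / s) ^ (1 + 1 / (ν : ℝ)) with hP1
    set P2 := (1 - ((k : ℝ) + 2) / s) ^ (1 + 1 / (ν : ℝ)) with hP2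
    rw [h4, h5]
    nlinarith

/-- The ordered mean is the sum `∑_j w_j f_j` for the decreasing order. -/
theorem orderedMean_eq (ν : ℕ) {T : Type} [Fintype T] (f : T → ℝ)
    (π : Fin (Fintype.card T) ≃ T) (h : Antitone fun j => f (π j)) :
    orderedMean ν f = ∑ j : Fin (Fintype.card T), weight ν (Fintype.card T) j * f (π j) := by
  have hne : Nonempty (Fin (Fintype.card T) ≃ T) := ⟨π⟩
  refine le_antisymm (ciInf_le (Set.finite_range _).bddBelow π) (le_ciInf fun ρ => ?_)
  have h1 : Antivary (fun j : Fin (Fintype.card T) => weight ν (Fintype.card T) j)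
      (fun j => f (π j)) := by
    intro a b hab
    have h2 : b < a := by
      by_contra h3
      exact absurd (h (not_lt.1 h3)) (not_le.2 hab)
    exact weight_mono h2.le a.2
  have h2 := h1.sum_mul_le_sum_mul_comp_perm (σ := ρ.trans π.symm)
  refine h2.trans (le_of_eq (Finset.sum_congr rfl fun j _ => ?_))
  simp

/-- The constant `K(ν, s) = (ν + 1) / (1 - ν (s - 1) (1 - (1 - 1 / s) ^ (1 / ν)))`. -/
noncomputable def K (ν s : ℕ) : ℝ :=
  ((ν : ℝ) + 1) / (1 - ν * ((s : ℝ) - 1) * (1 - (1 - 1 / (s : ℝ)) ^ (1 / (ν : ℝ))))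

/-- The mean is at most `K / (ν + 1)` times the ordered mean: for all numbers of conjugates the main
theorem implies a bound for the usual means, with the constant `K(ν, s)`. -/
theorem mean_le {ν : ℕ} (hν : 1 ≤ ν) {T : Type} [Fintype T] [Nonempty T] (f : T → ℝ)
    (hf : ∀ τ, 0 ≤ f τ) :
    (∑ τ, f τ) / Fintype.card T ≤ K ν (Fintype.card T) / (ν + 1) * orderedMean ν f := by
  have hs : 1 ≤ Fintype.card T := Fintype.card_pos
  set s := Fintype.card T with hsd
  have hs0 : (0 : ℝ) < s := by exact_mod_cast hs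
  obtain ⟨-, -, hpos, -⟩ := Pool.Agent.T9h24.K_facts ν s hν hs
  have hν0 : (0 : ℝ) < (ν : ℝ) + 1 := by positivity
  set Q : ℝ := 1 - ν * ((s : ℝ) - 1) * (1 - (1 - 1 / (s : ℝ)) ^ (1 / (ν : ℝ))) with hQ
  have hw : weight ν s 0 = Q / s := by
    unfold weight profile
    have h0 : (0 : ℝ) ≤ 1 - 1 / s := by
      rw [sub_nonneg, div_le_one hs0]
      exact_mod_cast hs
    have h1 : (1 - 1 / (s : ℝ)) ^ (1 + 1 / (ν : ℝ)) =
        (1 - 1 / (s : ℝ)) * (1 - 1 / (s : ℝ)) ^ (1 / (ν : ℝ)) := by
      rcases eq_or_lt_of_le h0 with h2 | h2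
      · rw [← h2, Real.zero_rpow (by positivity), zero_mul]
      · rw [Real.rpow_add h2, Real.rpow_one]
    rw [Nat.cast_zero, zero_add, zero_div, sub_zero, Real.one_rpow, h1, hQ]
    set P := (1 - 1 / (s : ℝ)) ^ (1 / (ν : ℝ)) with hP
    field_simp
    ring
  have h1 : Q / s * ∑ τ, f τ ≤ orderedMean ν f := by
    have hne : Nonempty (Fin s ≃ T) := ⟨(Fintype.equivFin T).symm⟩
    refine le_ciInf fun π => ?_
    rw [← Equiv.sum_comp π, Finset.mul_sum, ← hw]
    exact Finset.sum_le_sum fun j _ => mul_le_mul_of_nonneg_right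
      (weight_mono (Nat.zero_le _) j.2) (hf _)
  have h2 : K ν s / ((ν : ℝ) + 1) = 1 / Q := by
    unfold K
    rw [← hQ]
    field_simp
  rw [h2]
  calc (∑ τ, f τ) / s = 1 / Q * (Q / s * ∑ τ, f τ) := by field_simp
    _ ≤ _ := mul_le_mul_of_nonneg_left h1 (by positivity)

/-! ### Scaling -/

theorem eval_smul_form {F : Type} [Field F] {d : ℕ} {P : MvPolynomial (Fin (n + 1)) F}
    (hP : P.IsHomogeneous d) (c : F) (y : Fin (n + 1) → F) :
    eval (c • y) P = c ^ d * eval y P := by
  rw [eval_eq', eval_eq', Finset.mul_sum]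
  refine Finset.sum_congr rfl fun a ha => ?_
  have h1 : a.degree = d := by
    by_contra h
    exact mem_support_iff.1 ha (hP.coeff_eq_zero h)
  simp only [Pi.smul_apply, smul_eq_mul, mul_pow]
  rw [Finset.prod_mul_distrib, Finset.prod_pow_eq_pow_sum, ← Finsupp.degree_eq_sum, h1]
  ring

theorem lambda_smul {F : Type} [NormedField F] {d : ℕ} {P : MvPolynomial (Fin (n + 1)) F}
    (hP : P.IsHomogeneous d) (c : F) (hc : c ≠ 0) (y : Fin (n + 1) → F) :
    lambda d P (c • y) = lambda d P y := by
  unfold lambda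
  rw [eval_smul_form hP, norm_smul, norm_mul, norm_pow, mul_pow,
    mul_div_mul_left _ _ (pow_ne_zero _ (norm_ne_zero_iff.2 hc))]

theorem lambda_mul {E : Type} [Field E] {F : Type} [NormedField F]
    {H : Fin q → MvPolynomial (Fin (n + 1)) Qbar} {d : Fin q → ℕ}
    (hH : ∀ i, (H i).IsHomogeneous (d i)) (j : Qbar →+* F) (τ : E →+* F)
    (x : Fin (n + 1) → E) (c : E) (hc : c ≠ 0) (i : Fin q) :
    lambda (d i) (map j (H i)) (fun l => τ (c * x l)) =
      lambda (d i) (map j (H i)) (fun l => τ (x l)) := by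
  have h1 : (fun l => τ (c * x l)) = τ c • fun l => τ (x l) := by
    funext l
    rw [map_mul, Pi.smul_apply, smul_eq_mul]
  rw [h1, lambda_smul ((hH _).map _) _ ((map_ne_zero τ).2 hc)]

/-! ### Reduction to frames -/

theorem orderedMean_le {ν : ℕ} (hν : 1 ≤ ν) {T : Type} [Fintype T] [Nonempty T] {s : ℕ}
    (hs : Fintype.card T = s) (f g : T → ℝ) (c : ℝ) (h : ∀ τ, f τ ≤ g τ + c) :
    orderedMean ν f ≤ ((ν : ℝ) + 1) * Pool.Agent.T9h24.Lst ν s g + c := by
  subst hs
  have hs1 : 1 ≤ Fintype.card T := Fintype.card_pos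
  unfold Pool.Agent.T9h24.Lst
  rw [Real.mul_iInf_of_nonneg (by positivity), ← sub_le_iff_le_add]
  have hne : Nonempty (Fin (Fintype.card T) ≃ T) := ⟨(Fintype.equivFin T).symm⟩
  refine le_ciInf fun π => ?_
  rw [sub_le_iff_le_add]
  refine (ciInf_le (Set.finite_range _).bddBelow π).trans ?_
  have h1 : ∑ j : Fin (Fintype.card T), weight ν (Fintype.card T) j * f (π j) ≤
      ∑ j : Fin (Fintype.card T), weight ν (Fintype.card T) j * (g (π j) + c) :=
    Finset.sum_le_sum fun j _ => mul_le_mul_of_nonneg_left (h _) (weight_nonneg hν hs1 j)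
  refine h1.trans (le_of_eq ?_)
  simp only [mul_add]
  rw [Finset.sum_add_distrib, ← Finset.sum_mul, weight_sum ν hs1, one_mul, Finset.mul_sum]
  congr 1
  refine Finset.sum_congr rfl fun j _ => ?_
  rw [weight_eq]
  ring

theorem ncz_of_generalPosition {ν : ℕ} {G : Fin m → MvPolynomial (Fin (n + 1)) ℚ}
    {H : Fin q → MvPolynomial (Fin (n + 1)) Qbar} {A : Finset (Fin q)}
    (h : GeneralPosition G ν H A) {e : Fin (ν + 1) → Fin q} (he : Function.Injective e)
    (heA : ∀ l, e l ∈ A) : Pool.Agent.T9h24.NCZ G H e := by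
  classical
  intro x hx1 hx2
  refine h.2 (Finset.univ.image e) (fun i hi => ?_) ?_ x (fun k => ?_) fun i hi => ?_
  · obtain ⟨l, -, rfl⟩ := Finset.mem_image.1 hi
    exact heA l
  · rw [Finset.card_image_of_injective _ he, Finset.card_univ, Fintype.card_fin]
  · rw [aeval_def, ← eval_map]
    exact hx1 k
  · obtain ⟨l, -, rfl⟩ := Finset.mem_image.1 hi
    exact hx2 l

/-- Reduction to the `ν + 1` largest local heights. -/
theorem frames {ν : ℕ} {G : Fin m → MvPolynomial (Fin (n + 1)) ℚ} {g : Fin m → ℕ}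
    (hg : ∀ k, (G k).IsHomogeneous (g k))
    {H : Fin q → MvPolynomial (Fin (n + 1)) Qbar} {d : Fin q → ℕ} (hd : ∀ i, 1 ≤ d i)
    (hH : ∀ i, (H i).IsHomogeneous (d i)) (F : Type) [NormedField F] [CharZero F]
    [IsAlgClosed F] :
    ∃ C0 : ℝ, 0 ≤ C0 ∧ ∀ (j : Qbar →+* F) (A : Finset (Fin q)), GeneralPosition G ν H A →
      ∀ z : Fin (n + 1) → F, z ≠ 0 → (∀ k, eval z (map (algebraMap ℚ F) (G k)) = 0) →
      ∃ e : Fin (ν + 1) → Fin q, Pool.Agent.T9h24.NCZ G H e ∧ ∀ i,
        (if i ∈ A then lambda (d i) (map j (H i)) z / d i else 0) ≤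
        (if ∃ k, e k = i then max 0 (lambda (d i) (map j (H i)) z) else 0) / d i + C0 := by
  classical
  choose Ae hAe0 hAe using fun e : {e : Fin (ν + 1) → Fin q // Pool.Agent.T9h24.NCZ G H e} =>
    Pool.Agent.T9h24.ncz_bound (F := F) hg hH e.2
  refine ⟨∑ e, Ae e, Finset.sum_nonneg fun e _ => hAe0 e, fun j A hA z hz hzG => ?_⟩
  obtain ⟨e, he, heA, hmax⟩ := Pool.Agent.T9h24.exists_top_subset A hA.1
    (fun i => lambda (d i) (map j (H i)) z / d i)
  have hncz := ncz_of_generalPosition hA he heA
  refine ⟨e, hncz, fun i => ?_⟩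
  have hdi : (1 : ℝ) ≤ d i := by exact_mod_cast hd i
  have hC0 : Ae ⟨e, hncz⟩ ≤ ∑ e, Ae e :=
    Finset.single_le_sum (f := fun e => Ae e) (fun e _ => hAe0 e) (Finset.mem_univ _)
  have hCn : 0 ≤ ∑ e, Ae e := Finset.sum_nonneg fun e _ => hAe0 e
  by_cases hi : i ∈ A
  · rw [if_pos hi]
    by_cases hk : ∃ k, e k = i
    · rw [if_pos hk]
      have h1 : lambda (d i) (map j (H i)) z / d i ≤
          max 0 (lambda (d i) (map j (H i)) z) / d i :=
        div_le_div_of_nonneg_right (le_max_right _ _) (by linarith)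
      linarith
    · rw [if_neg hk, zero_div, zero_add]
      push Not at hk
      obtain ⟨k, hkA⟩ := hAe ⟨e, hncz⟩ j z hz hzG
      have hdk : (1 : ℝ) ≤ d (e k) := by exact_mod_cast hd (e k)
      refine (hmax i hi hk k).trans ?_
      have h2 : lambda (d (e k)) (map j (H (e k))) z / d (e k) ≤ Ae ⟨e, hncz⟩ / d (e k) :=
        div_le_div_of_nonneg_right hkA (by linarith)
      have h3 : Ae ⟨e, hncz⟩ / d (e k) ≤ Ae ⟨e, hncz⟩ := div_le_self (hAe0 _) hdk
      linarith
  · rw [if_neg hi]
    have h1 : 0 ≤ (if ∃ k, e k = i then max 0 (lambda (d i) (map j (H i)) z) else 0) /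
        (d i : ℝ) := by
      refine div_nonneg ?_ (by linarith)
      split_ifs
      · exact le_max_left _ _
      · exact le_rfl
    linarith

/-- **Ordered local heights of algebraic points of bounded degree.** Let `X = {G = 0}` be a
geometrically integral closed subvariety of `ℙ^n` over `ℚ` of dimension `ν ≥ 1`, and let `H i`,
`i < q`, be forms of degrees `d i ≥ 1` over the algebraic closure of `ℚ`. For all `r` and `ε > 0`
there is a finite set `Z` of forms over the algebraic closure of `ℚ` which do not vanish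
identically on `X`, with the following property. For all finite sets `S` of primes there is a
constant `C` such that for all points `x` of `X` over number fields `E` of degree at most `r` such
that no conjugate of `x` is a zero of a form in `Z`, and for all choices, for each place
`v ∈ S ∪ {∞}` and each embedding `τ` of `E` in the algebraic closure of `ℚ_v`, of a set `A_v(τ)`
of indices `i` such that the divisors `H_i = 0`, `i ∈ A_v(τ)`, of `X` are in general position,
`∑_{v ∈ S ∪ {∞}} ∑_i ∑_j w_j f_{v,i,j} ≤ (ν + 1 + ε) h(x) + C`.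
Here `f_{v,i,0} ≥ f_{v,i,1} ≥ …` are the numbers `λ_{H_i}(τ(x)) / d_i` (if `i ∈ A_v(τ)`) or `0`
(if not) in decreasing order. -/
theorem result (m n q ν r : ℕ) (hν : 1 ≤ ν)
    (G : Fin m → MvPolynomial (Fin (n + 1)) ℚ) (hG : IsVariety G ν)
    (H : Fin q → MvPolynomial (Fin (n + 1)) Qbar) (d : Fin q → ℕ) (hd : ∀ i, 1 ≤ d i)
    (hH : ∀ i, (H i).IsHomogeneous (d i)) (ε : ℝ) (hε : 0 < ε) :
    ∃ Z : Finset (MvPolynomial (Fin (n + 1)) Qbar),
      (∀ P ∈ Z, P ∉ ideal G ∧ ∃ t, P.IsHomogeneous t) ∧
      ∀ S : Finset Nat.Primes, ∃ C : ℝ,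
        ∀ (E : Type) [Field E] [NumberField E], Module.finrank ℚ E ≤ r →
        ∀ x : Fin (n + 1) → E, x ≠ 0 → On G x →
        (∀ P ∈ Z, ∀ τ : E →+* Qbar, eval (fun i => τ (x i)) P ≠ 0) →
        ∀ (j : Qbar →+* ℂ) (A : (E →+* ℂ) → Finset (Fin q)),
          (∀ τ, GeneralPosition G ν H (A τ)) →
        ∀ (jp : ∀ p : Nat.Primes, Qbar →+* PadicAlgCl p)
          (Ap : ∀ p : Nat.Primes, (E →+* PadicAlgCl p) → Finset (Fin q)),
          (∀ p ∈ S, ∀ τ, GeneralPosition G ν H (Ap p τ)) →
          proximity ν H d j A x + ∑ p ∈ S, proximity ν H d (jp p) (Ap p) x ≤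
            ((ν : ℝ) + 1 + ε) * height x + C := by
  classical
  have hν0 : (0 : ℝ) < (ν : ℝ) + 1 := by positivity
  -- the parameters
  set δ : ℝ := min 1 (ε / (3 * ((ν : ℝ) + 1))) with hδ
  have hδ0 : 0 < δ := lt_min one_pos (by positivity)
  have hδ1 : δ ≤ 1 := min_le_left _ _
  have hδ2 : δ * (3 * ((ν : ℝ) + 1)) ≤ ε := by
    have h1 : δ ≤ ε / (3 * ((ν : ℝ) + 1)) := min_le_right _ _
    rwa [le_div_iff₀ (by positivity)] at h1
  set η : ℝ := 1 / (1 + δ) with hηd
  have hη0 : 0 < η := by positivity
  have hη1 : η < 1 := by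
    rw [hηd, div_lt_one (by linarith)]
    linarith
  choose g hg using hG.isHomogeneous
  have hdim : Algebra.trdeg Qbar (MvPolynomial (Fin (n + 1)) Qbar ⧸
      Pool.Agent.T9h24.idX G) = ((ν + 1 : ℕ) : Cardinal) := by
    have h1 := hG.dim
    push_cast
    exact h1
  obtain ⟨Ci, hCi0, hCi⟩ := frames (ν := ν) hg hd hH ℂ
  choose Cp hCp0 hCp using fun p : Nat.Primes => frames (ν := ν) hg hd hH (PadicAlgCl p)
  have hZs : ∀ s : ℕ, ∃ Z : Finset (MvPolynomial (Fin (n + 1)) Qbar),
      1 ≤ s → s ≤ r → (∀ P ∈ Z, P ∉ ideal G ∧ ∃ t, P.IsHomogeneous t) ∧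
      ∀ S : Finset Nat.Primes, ∃ Cc : ℝ, ∀ (E : Type) [Field E]
        [NumberField E], Module.finrank ℚ E = s → ∀ x : Fin (n + 1) → E, x ≠ 0 → On G x →
        (∀ P ∈ Z, ∀ τ : E →+* Qbar, eval (fun i => τ (x i)) P ≠ 0) →
        ∀ (j : Qbar →+* ℂ) (A : (E →+* ℂ) → Finset (Fin q)),
          (∀ τ, GeneralPosition G ν H (A τ)) →
        ∀ (jp : ∀ p : Nat.Primes, Qbar →+* PadicAlgCl p)
          (Ap : ∀ p : Nat.Primes, (E →+* PadicAlgCl p) → Finset (Fin q)),
          (∀ p ∈ S, ∀ τ, GeneralPosition G ν H (Ap p τ)) →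
          proximity ν H d j A x + ∑ p ∈ S, proximity ν H d (jp p) (Ap p) x ≤
            ((ν : ℝ) + 1 + ε) * height x + Cc := by
    intro s
    by_cases hs : 1 ≤ s ∧ s ≤ r
    · obtain ⟨hs1, hsr⟩ := hs
      obtain ⟨Z, hZ, h⟩ := Pool.Agent.T9h24.degY hν s hs1 G g hg hG.isPrime hdim H d hd hH
        η hη0.le hη1
      refine ⟨Z, fun _ _ => ⟨hZ, fun S => ?_⟩⟩
      obtain ⟨Cc, hC⟩ := h S δ hδ0
      have hs0 : (0 : ℝ) < s := by exact_mod_cast hs1
      refine ⟨((ν : ℝ) + 1) * ((1 + δ) * |Cc|) + (q * Ci + ∑ p ∈ S, q * Cp p),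
        fun E _ _ hE x hx hxG hxZ j A hA jp Ap hAp => ?_⟩
      -- integral coordinates
      obtain ⟨a, ha0, ha⟩ := exists_integral_multiples ℤ ℚ (Finset.univ.image x)
      have hint : ∀ i, ∃ w : NumberField.RingOfIntegers E, (w : E) = (a : E) * x i := by
        intro i
        have h1 := ha (x i) (Finset.mem_image_of_mem _ (Finset.mem_univ i))
        rw [zsmul_eq_mul] at h1
        exact ⟨⟨_, h1⟩, rfl⟩
      choose x' hx' using hint
      have haE : (a : E) ≠ 0 := by exact_mod_cast ha0
      have hx'0 : x' ≠ 0 := by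
        intro h0
        apply hx
        funext i
        have h1 := hx' i
        rw [h0] at h1
        have h2 : (a : E) * x i = 0 := by rw [← h1]; rfl
        exact (mul_eq_zero.1 h2).resolve_left haE
      have hx'f : (fun i => (x' i : E)) = fun i => (a : E) * x i := funext hx'
      have hx's : (fun i => (x' i : E)) = (a : E) • x := hx'f
      have hx'G : ∀ k, aeval (fun i => (x' i : E)) (G k) = 0 := by
        intro k
        have h1 : aeval (fun i => (x' i : E)) (G k) = eval ((a : E) • x)
            (map (algebraMap ℚ E) (G k)) := by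
          rw [hx's, aeval_def, eval_map]
        rw [h1, eval_smul_form ((hg k).map _)]
        have h2 : eval x (map (algebraMap ℚ E) (G k)) = 0 := by
          rw [eval_map]
          exact hxG k
        rw [h2, mul_zero]
      have hzτ : ∀ (F : Type) [Field F] [CharZero F] (τ : E →+* F),
          (fun l => τ (x' l : E)) ≠ 0 := by
        intro F _ _ τ h0
        apply hx'0
        funext i
        have h1 : τ (x' i : E) = 0 := congrFun h0 i
        exact NumberField.RingOfIntegers.ext (by simpa using h1)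
      have hzG : ∀ (F : Type) [Field F] [CharZero F] (τ : E →+* F) (k : Fin m),
          eval (fun l => τ (x' l : E)) (map (algebraMap ℚ F) (G k)) = 0 := by
        intro F _ _ τ k
        exact Pool.Agent.T9h24.map_point (G k) (fun i => (x' i : E)) τ (hx'G k)
      -- the frames
      choose e he hle using fun τ : E →+* ℂ =>
        hCi j (A τ) (hA τ) (fun l => τ (x' l : E)) (hzτ ℂ τ) (hzG ℂ τ)
      obtain ⟨τ0⟩ := Pool.Agent.T9h24.exists_emb E ℂ
      have hep : ∀ (p : Nat.Primes) (τ : E →+* PadicAlgCl p), ∃ e : Fin (ν + 1) → Fin q,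
          p ∈ S → Pool.Agent.T9h24.NCZ G H e ∧ ∀ i,
          (if i ∈ Ap p τ then lambda (d i) (map (jp p) (H i)) (fun l => τ (x' l : E)) / d i
            else 0) ≤ (if ∃ k, e k = i then max 0 (lambda (d i) (map (jp p) (H i))
              (fun l => τ (x' l : E))) else 0) / d i + Cp p := by
        intro p τ
        by_cases hp : p ∈ S
        · obtain ⟨e, he, hle⟩ := hCp p (jp p) (Ap p τ) (hAp p hp τ) (fun l => τ (x' l : E))
            (hzτ _ τ) (hzG _ τ)
          exact ⟨e, fun _ => ⟨he, hle⟩⟩
        · exact ⟨e τ0, fun h => absurd h hp⟩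
      choose ep hep using hep
      have hmain := hC E hE x' hx'0 hx'G (by
        intro P hP τ h0
        apply hxZ P hP τ
        obtain ⟨t, ht⟩ := (hZ P hP).2
        have h1 : (fun i => τ (x' i : E)) = τ (a : E) • fun i => τ (x i) := by
          funext i
          rw [Pi.smul_apply, smul_eq_mul, hx', map_mul]
        rw [h1, eval_smul_form ht] at h0
        exact (mul_eq_zero.1 h0).resolve_left (pow_ne_zero _ ((map_ne_zero τ).2 haE)))
        e j he ep jp (fun p hp τ => (hep p τ hp).1)
        (fun τ i => if ∃ k, e τ k = i then max 0 (lambda (d i) (map j (H i))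
          (fun l => τ (x' l : E))) else 0)
        (fun p τ i => if ∃ k, ep p τ k = i then max 0 (lambda (d i) (map (jp p) (H i))
          (fun l => τ (x' l : E))) else 0)
        (fun τ i => by
          by_cases h1 : ∃ k, e τ k = i
          · exact Or.inr ⟨h1, if_pos h1⟩
          · exact Or.inl (if_neg h1))
        (fun τ k => if_pos ⟨k, rfl⟩)
        (fun p _ τ i => by
          by_cases h1 : ∃ k, ep p τ k = i
          · exact Or.inr ⟨h1, if_pos h1⟩
          · exact Or.inl (if_neg h1))
        (fun p _ τ k => if_pos ⟨k, rfl⟩)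
      have hht : Height.logHeight (fun i => (x' i : E)) = Height.logHeight x := by
        rw [hx'f]
        exact Height.logHeight_smul_eq_logHeight x haE
      have hh : Height.logHeight x / s = height x := by
        unfold height
        rw [hE]
      rw [hht, hh] at hmain
      set A1 := ∑ i, Pool.Agent.T9h24.Lst ν s (fun τ : E →+* ℂ =>
        (if ∃ k, e τ k = i then max 0 (lambda (d i) (map j (H i))
          (fun l => τ (x' l : E))) else 0) / d i) with hA1
      set A2 := ∑ p ∈ S, ∑ i, Pool.Agent.T9h24.Lst ν s (fun τ : E →+* PadicAlgCl p =>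
        (if ∃ k, ep p τ k = i then max 0 (lambda (d i) (map (jp p) (H i))
          (fun l => τ (x' l : E))) else 0) / d i) with hA2
      have hP1 : proximity ν H d j A x ≤ ((ν : ℝ) + 1) * A1 + q * Ci := by
        have hcard : Fintype.card (E →+* ℂ) = s := by
          rw [Pool.Agent.T9h24.card_emb ℂ, hE]
        have hne : Nonempty (E →+* ℂ) := ⟨τ0⟩
        unfold proximity
        have h1 : ∀ i, orderedMean ν (fun τ : E →+* ℂ => if i ∈ A τ then
            lambda (d i) (map j (H i)) (fun l => τ (x l)) / d i else 0) ≤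
            ((ν : ℝ) + 1) * Pool.Agent.T9h24.Lst ν s (fun τ : E →+* ℂ =>
              (if ∃ k, e τ k = i then max 0 (lambda (d i) (map j (H i))
                (fun l => τ (x' l : E))) else 0) / d i) + Ci := by
          intro i
          refine orderedMean_le hν hcard _ _ _ fun τ => ?_
          have h2 := hle τ i
          rw [show (fun l => τ (x' l : E)) = fun l => τ ((a : E) * x l) from
            funext fun l => by rw [hx'], lambda_mul hH j τ x a haE i] at h2
          rw [show (fun l => τ (x' l : E)) = fun l => τ ((a : E) * x l) from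
            funext fun l => by rw [hx'], lambda_mul hH j τ x a haE i]
          exact h2
        refine (Finset.sum_le_sum fun i _ => h1 i).trans (le_of_eq ?_)
        rw [Finset.sum_add_distrib, ← Finset.mul_sum, Finset.sum_const, Finset.card_univ,
          Fintype.card_fin, nsmul_eq_mul]
      have hP2 : ∀ p ∈ S, proximity ν H d (jp p) (Ap p) x ≤ ((ν : ℝ) + 1) *
          (∑ i, Pool.Agent.T9h24.Lst ν s (fun τ : E →+* PadicAlgCl p =>
            (if ∃ k, ep p τ k = i then max 0 (lambda (d i) (map (jp p) (H i))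
              (fun l => τ (x' l : E))) else 0) / d i)) + q * Cp p := by
        intro p hp
        have hcard : Fintype.card (E →+* PadicAlgCl p) = s := by
          rw [Pool.Agent.T9h24.card_emb (PadicAlgCl p), hE]
        have hne : Nonempty (E →+* PadicAlgCl p) := by
          rw [← Fintype.card_pos_iff, hcard]
          exact hs1
        unfold proximity
        have h1 : ∀ i, orderedMean ν (fun τ : E →+* PadicAlgCl p => if i ∈ Ap p τ then
            lambda (d i) (map (jp p) (H i)) (fun l => τ (x l)) / d i else 0) ≤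
            ((ν : ℝ) + 1) * Pool.Agent.T9h24.Lst ν s (fun τ : E →+* PadicAlgCl p =>
              (if ∃ k, ep p τ k = i then max 0 (lambda (d i) (map (jp p) (H i))
                (fun l => τ (x' l : E))) else 0) / d i) + Cp p := by
          intro i
          refine orderedMean_le hν hcard _ _ _ fun τ => ?_
          have h2 := (hep p τ hp).2 i
          rw [show (fun l => τ (x' l : E)) = fun l => τ ((a : E) * x l) from
            funext fun l => by rw [hx'], lambda_mul hH (jp p) τ x a haE i] at h2
          rw [show (fun l => τ (x' l : E)) = fun l => τ ((a : E) * x l) from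
            funext fun l => by rw [hx'], lambda_mul hH (jp p) τ x a haE i]
          exact h2
        refine (Finset.sum_le_sum fun i _ => h1 i).trans (le_of_eq ?_)
        rw [Finset.sum_add_distrib, ← Finset.mul_sum, Finset.sum_const, Finset.card_univ,
          Fintype.card_fin, nsmul_eq_mul]
      have hP3 := Finset.sum_le_sum hP2
      rw [Finset.sum_add_distrib, ← Finset.mul_sum] at hP3
      have hh0 : 0 ≤ height x := div_nonneg (Height.logHeight_nonneg _) (Nat.cast_nonneg _)
      have hA12 : A1 + A2 ≤ (1 + δ) * ((1 + δ) * height x + |Cc|) := by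
        have h1 : η * (A1 + A2) ≤ (1 + δ) * height x + |Cc| := by
          have := le_abs_self Cc
          linarith
        rw [hηd, one_div, inv_mul_le_iff₀ (by linarith)] at h1
        exact h1
      have h1 : ((ν : ℝ) + 1) * (A1 + A2) ≤ ((ν : ℝ) + 1) *
          ((1 + δ) * ((1 + δ) * height x + |Cc|)) := mul_le_mul_of_nonneg_left hA12 hν0.le
      have h2 : ((ν : ℝ) + 1) * ((1 + δ) * (1 + δ)) ≤ (ν : ℝ) + 1 + ε := by nlinarith
      have h3 : ((ν : ℝ) + 1) * ((1 + δ) * (1 + δ)) * height x ≤
          ((ν : ℝ) + 1 + ε) * height x := mul_le_mul_of_nonneg_right h2 hh0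
      nlinarith
    · exact ⟨∅, fun h1 h2 => absurd ⟨h1, h2⟩ hs⟩
  choose Zs hZs using hZs
  refine ⟨(Finset.Icc 1 r).biUnion Zs, fun P hP => ?_, fun S => ?_⟩
  · obtain ⟨s, hs, hs'⟩ := Finset.mem_biUnion.1 hP
    exact (hZs s (Finset.mem_Icc.1 hs).1 (Finset.mem_Icc.1 hs).2).1 P hs'
  · have hCs : ∀ s : ℕ, ∃ Cc : ℝ, 1 ≤ s → s ≤ r → ∀ (E : Type) [Field E]
        [NumberField E], Module.finrank ℚ E = s → ∀ x : Fin (n + 1) → E, x ≠ 0 → On G x →
        (∀ P ∈ Zs s, ∀ τ : E →+* Qbar, eval (fun i => τ (x i)) P ≠ 0) →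
        ∀ (j : Qbar →+* ℂ) (A : (E →+* ℂ) → Finset (Fin q)),
          (∀ τ, GeneralPosition G ν H (A τ)) →
        ∀ (jp : ∀ p : Nat.Primes, Qbar →+* PadicAlgCl p)
          (Ap : ∀ p : Nat.Primes, (E →+* PadicAlgCl p) → Finset (Fin q)),
          (∀ p ∈ S, ∀ τ, GeneralPosition G ν H (Ap p τ)) →
          proximity ν H d j A x + ∑ p ∈ S, proximity ν H d (jp p) (Ap p) x ≤
            ((ν : ℝ) + 1 + ε) * height x + Cc := by
      intro s
      by_cases hs : 1 ≤ s ∧ s ≤ r
      · obtain ⟨Cc, hC⟩ := (hZs s hs.1 hs.2).2 S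
        exact ⟨Cc, fun _ _ => hC⟩
      · exact ⟨0, fun h1 h2 => absurd ⟨h1, h2⟩ hs⟩
    choose Cs hCs using hCs
    refine ⟨∑ s ∈ Finset.Icc 1 r, |Cs s|, fun E _ _ hE x hx hxG hxZ j A hA jp Ap hAp => ?_⟩
    have hpos : 1 ≤ Module.finrank ℚ E := Module.finrank_pos
    have hmem : Module.finrank ℚ E ∈ Finset.Icc 1 r := Finset.mem_Icc.2 ⟨hpos, hE⟩
    have h1 := hCs _ hpos hE E rfl x hx hxG (fun P hP => hxZ P
      (Finset.mem_biUnion.2 ⟨_, hmem, hP⟩)) j A hA jp Ap hAp
    have h2 : |Cs (Module.finrank ℚ E)| ≤ ∑ s ∈ Finset.Icc 1 r, |Cs s| :=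
      Finset.single_le_sum (f := fun s => |Cs s|) (fun s _ => abs_nonneg _) hmem
    have h3 := le_abs_self (Cs (Module.finrank ℚ E))
    linarith

end Pool.Agent.Results.MP_651af7_nt.OrderedLocalHeights
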